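import Pool.Agent.Helper84.E2.ChoiceOk
import Pool.Agent.Helper70.E2.Top0
import Pool.Agent.Helper7.E2.Top1

/-!
# E-T (MP_12a1af_nt), phase 2: the top theorem
-/

set_option autoImplicit false

open Finset

namespace Pool.Agent.E2

open Pool.Agent.ETS (Hash)
open Pool.Agent.Helper70.E2 (WP cnt_zone0 sub_mod_iff top_list0)
open Pool.Agent.Helper7.E2 (case2_card top_list2 top_zero1 top_list1)

variable {G : Geo}

/-- **Top theorem without lists**, same bottom. -/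
theorem top_zero0 (hG : G.Ok) {D : ℕ → Dt}
    (hD : ∀ K, G.K0 ≤ K → PH G D K ∧ PS G D K ∧ PT G D K) {K K' : ℕ} (hn : G.Near K K')
    (hq : G.q K = G.q K') :
    NBt (cl G (G.q K') 0 ++ [zn G D K]) [zn G D K'] (1600 * G.A K * G.b K) := by
  intro h h' ν
  have hK : G.K0 ≤ K := hn.1.trans hn.2.1
  have hPT := (hD K hK).2.2
  have hR : 0 < 2 ^ G.ρ K := by positivity
  refine (cnt_zone0 hG (D := D) hn hq h h' ν).trans ?_
  have hW : ∀ σ σ' ε n, (WP G D K K' σ σ' ε n).card ≤ 20 * G.A K := by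
    intro σ σ' ε n
    refine le_trans (card_le_card ?_) (hPT.t00 K' hn hq (σ' + ε) (n + (2 ^ G.ρ K - 1) * σ))
    intro p hp
    obtain ⟨h1, h2⟩ := mem_filter.mp hp
    refine mem_filter.mpr ⟨h1, ?_⟩
    rw [← add_assoc p.2]
    apply sub_mod_iff hR
    rw [← h2]
    congr 1
    ring
  have h1 : ∑ x ∈ range 2 ×ˢ range 3, (WP G D K K' (h [] / 2 ^ G.l K) (h' [] / 2 ^ G.l K') x.1
      (ν / 2 ^ G.w K + (2 ^ G.ρ K - 1) * x.2)).card ≤ 6 * (20 * G.A K) := by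
    refine (sum_le_card_nsmul _ _ _ (fun x _ => hW _ _ _ _)).trans ?_
    simp
  have h2 : G.A K ≤ G.A K * G.b K := Nat.le_mul_of_pos_right _ (by
    have := hG.b_pos K hK
    omega)
  have h3 : 1600 * G.A K * G.b K = 1600 * (G.A K * G.b K) := by ring
  rw [h3]
  omega

/-- **Top theorem without lists**, for arbitrary hash functions. -/
theorem top_zero (hG : G.Ok) {D : ℕ → Dt}
    (hD : ∀ K, G.K0 ≤ K → PH G D K ∧ PS G D K ∧ PT G D K) {K K' : ℕ} (hn : G.Near K K') {n : ℕ}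
    (hq : G.q K = G.nx^[n] (G.q K')) :
    NBt (cl G (G.q K') n ++ [zn G D K]) [zn G D K'] (1600 * G.A K * G.b K) := by
  have hK : G.K0 ≤ K := hn.1.trans hn.2.1
  match n with
  | 0 => exact top_zero0 hG hD hn hq
  | 1 => exact top_zero1 hG hD hn hq
  | n + 2 =>
    intro h h' ν
    refine (case2_card hG hn (hD K hK).2.2 (hD K' hn.1).2.2 hq h h' ν).trans ?_
    have h2 : G.A K ≤ G.A K * G.b K := Nat.le_mul_of_pos_right _ (by
      have := hG.b_pos K hK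
      omega)
    have h3 : 1600 * G.A K * G.b K = 1600 * (G.A K * G.b K) := by ring
    rw [h3]
    omega

/-- **Top theorem with lists.** -/
theorem top_list (hG : G.Ok) {D : ℕ → Dt}
    (hD : ∀ K, G.K0 ≤ K → PH G D K ∧ PS G D K ∧ PT G D K) {K K' : ℕ} (hn : G.Near K K')
    (hT : G.isT K ∨ G.isT K') {n : ℕ} (hq : G.q K = G.nx^[n] (G.q K')) {L : Finset (ℕ × ℕ)}
    (hL : L ∈ G.LF K K') (μ ν : ℕ) (f : (ℕ × ℕ) × (ℕ × ℕ) → ℕ)
    (hf : ∀ a ∈ Lam G D K K' L μ, ∃ h h' : Hash,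
      (∀ y ∈ Vs (cl G (G.q K') n), nexts (cl G (G.q K') n) h y [] = (D K).S a.2.1) ∧
      h' [] = (D K').S a.2.2 ∧
      f a ≤ cnt (cl G (G.q K') n ++ [zn G D K]) [zn G D K'] h h' ν) :
    ∑ a ∈ Lam G D K K' L μ, f a ≤ 10 ^ 6 * G.A K * G.b K ^ 3 := by
  match n with
  | 0 => exact top_list0 hG hD hn hT hq hL μ ν f hf
  | 1 => exact top_list1 hG hD hn hT hq hL μ ν f hf
  | n + 2 =>
    refine (top_list2 hG hD hn hT hq hL μ ν f hf).trans ?_
    have h3 : 48 * G.A K * G.b K ^ 3 = 48 * (G.A K * G.b K ^ 3) := by ring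
    have h4 : 10 ^ 6 * G.A K * G.b K ^ 3 = 10 ^ 6 * (G.A K * G.b K ^ 3) := by ring
    rw [h3, h4]
    exact Nat.mul_le_mul_right _ (by norm_num)

end Pool.Agent.E2
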