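import Pool.Agent.Helper84.E2.TopDefs

/-!
# E-T (MP_12a1af_nt), phase 2: the sequential choice
-/

set_option autoImplicit false

open Finset

namespace Pool.Agent.E2

/-- Sequences with a local property. -/
theorem exists_seq {α : Type*} [Inhabited α] (P : ℕ → (ℕ → α) → Prop)
    (hloc : ∀ K f g, (∀ j ≤ K, f j = g j) → P K f → P K g)
    (hstep : ∀ K f, (∀ j < K, P j f) → ∃ x, P K (Function.update f K x)) :
    ∃ f, ∀ K, P K f := by
  classical
  let F : (n : ℕ) → {f : ℕ → α // ∀ j < n, P j f} := fun n => Nat.rec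
    (⟨fun _ => default, fun j hj => absurd hj (Nat.not_lt_zero j)⟩ :
      {f : ℕ → α // ∀ j < 0, P j f})
    (fun n f => ⟨Function.update f.1 n (Classical.choose (hstep n f.1 f.2)), by
      intro j hj
      rcases Nat.lt_succ_iff_lt_or_eq.mp hj with h | h
      · apply hloc j f.1 _ _ (f.2 j h)
        intro i hi
        rw [Function.update_of_ne (by omega)]
      · subst h
        exact Classical.choose_spec (hstep j f.1 f.2)⟩) n
  have hF : ∀ n, (F (n + 1)).1 =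
      Function.update (F n).1 n (Classical.choose (hstep n (F n).1 (F n).2)) := fun n => rfl
  have hag : ∀ m j, j < m → (F m).1 j = (F (j + 1)).1 j := by
    intro m
    induction m with
    | zero => intro j hj; omega
    | succ m ih =>
      intro j hj
      rcases Nat.lt_succ_iff_lt_or_eq.mp hj with h | h
      · rw [hF, Function.update_of_ne (by omega)]
        exact ih j h
      · rw [h]
  refine ⟨fun n => (F (n + 1)).1 n, fun K => ?_⟩
  apply hloc K (F (K + 1)).1 _ _ ((F (K + 1)).2 K (Nat.lt_succ_self K))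
  intro j hj
  exact hag (K + 1) j (by omega)

section

variable {G : Geo} {D D' : ℕ → Dt}

lemma Sh_congr {K : ℕ} (h : D K = D' K) (ω : ℕ) : Sh G D K ω = Sh G D' K ω := by
  unfold Sh
  rw [h]

lemma Lam_congrK {K K' : ℕ} (h : D K = D' K) (h' : D K' = D' K') (L : Finset (ℕ × ℕ)) (μ : ℕ) :
    Lam G D K K' L μ = Lam G D' K K' L μ := by
  unfold Lam
  rw [h, h']

lemma PH.congr {K : ℕ} (h : ∀ j ≤ K, D j = D' j) (hP : PH G D K) : PH G D' K := by
  have hK := h K le_rfl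
  refine ⟨?_, ?_, ?_, ?_⟩
  · rw [← hK]; exact hP.zero
  · rw [← hK]; exact hP.own
  · intro K' hn h1 h2 h3 L hL x
    rw [← hK, ← h K' hn.2.1]
    exact hP.two K' hn h1 h2 h3 L hL x
  · rw [← hK]; exact hP.self

lemma PS.congr {K : ℕ} (h : ∀ j ≤ K, D j = D' j) (hP : PS G D K) : PS G D' K := by
  have hK := h K le_rfl
  refine ⟨?_, ?_, ?_, ?_⟩
  · intro K' hn h1 h2 h3 L hL μ n ε hε
    have hK' := h K' hn.2.1
    simp only [← Lam_congrK (G := G) hK hK', ← Sh_congr (G := G) hK, ← Sh_congr (G := G) hK', ← hK']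
    exact hP.s0 K' hn h1 h2 h3 L hL μ n ε hε
  · intro K' hn h1 h2 L hL μ n ε hε
    have hK' := h K' hn.2.1
    simp only [← Lam_congrK (G := G) hK hK', ← Sh_congr (G := G) hK', ← hK', ← hK]
    exact hP.s1 K' hn h1 h2 L hL μ n ε hε
  · intro K' hn h1 h2 L hL μ n
    have hK' := h K' hn.2.1
    simp only [← Lam_congrK (G := G) hK hK', ← Sh_congr (G := G) hK]
    exact hP.s2 K' hn h1 h2 L hL μ n
  · intro h1 L hL μ n
    simp only [← Lam_congrK (G := G) hK hK, ← Sh_congr (G := G) hK]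
    exact hP.self h1 L hL μ n

lemma PT.congr {K : ℕ} (h : ∀ j ≤ K, D j = D' j) (hP : PT G D K) : PT G D' K := by
  have hK := h K le_rfl
  refine ⟨?_, ?_, ?_, ?_, ?_, ?_, ?_, ?_, ?_, ?_, ?_, ?_⟩
  · rw [← hK]; exact hP.card
  · rw [← hK]; exact hP.lt
  · rw [← hK]; exact hP.ta
  · rw [← hK]; exact hP.tc
  · rw [← hK]; exact hP.td
  · rw [← hK]; exact hP.td'
  · intro K' hn
    rw [← hK, ← h K' hn.2.1]; exact hP.t00 K' hn
  · intro K' hn
    rw [← hK, ← h K' hn.2.1]; exact hP.t01 K' hn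
  · intro K' hn h1 h2 h3 L hL μ n ε hε
    have hK' := h K' hn.2.1
    simp only [← Lam_congrK (G := G) hK hK', ← Sh_congr (G := G) hK, ← Sh_congr (G := G) hK',
      ← hK', ← hK]
    exact hP.t0 K' hn h1 h2 h3 L hL μ n ε hε
  · intro K' hn h1 h2 L hL μ n ε hε
    have hK' := h K' hn.2.1
    simp only [← Lam_congrK (G := G) hK hK', ← Sh_congr (G := G) hK', ← hK', ← hK]
    exact hP.t1 K' hn h1 h2 L hL μ n ε hε
  · intro K' hn h1 h2 L hL μ n
    have hK' := h K' hn.2.1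
    simp only [← Lam_congrK (G := G) hK hK', ← Sh_congr (G := G) hK, ← hK]
    exact hP.t2 K' hn h1 h2 L hL μ n
  · intro h1 L hL μ n
    simp only [← Lam_congrK (G := G) hK hK, ← Sh_congr (G := G) hK, ← hK]
    exact hP.self h1 L hL μ n

/-- **The local choice**, from the three steps. -/
theorem exists_choice_of
    (stepH : ∀ (D : ℕ → Dt) {K : ℕ}, G.K0 ≤ K →
      (∀ K', G.K0 ≤ K' → K' < K → PH G D K' ∧ PS G D K' ∧ PT G D K') →
      ∃ H, ∀ S T, PH G (Function.update D K ⟨H, S, T⟩) K)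
    (stepS : ∀ (D : ℕ → Dt) {K : ℕ}, G.K0 ≤ K →
      (∀ K', G.K0 ≤ K' → K' < K → PH G D K' ∧ PS G D K' ∧ PT G D K') → ∀ (H : ℕ → ℕ),
      (∀ S T, PH G (Function.update D K ⟨H, S, T⟩) K) →
      ∃ S, ∀ T, PS G (Function.update D K ⟨H, S, T⟩) K)
    (stepT : ∀ (D : ℕ → Dt) {K : ℕ}, G.K0 ≤ K →
      (∀ K', G.K0 ≤ K' → K' < K → PH G D K' ∧ PS G D K' ∧ PT G D K') → ∀ (H S : ℕ → ℕ),
      (∀ T, PH G (Function.update D K ⟨H, S, T⟩) K) →
      (∀ T, PS G (Function.update D K ⟨H, S, T⟩) K) →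
      ∃ T, PT G (Function.update D K ⟨H, S, T⟩) K) :
    ∃ D : ℕ → Dt, ∀ K, G.K0 ≤ K → PH G D K ∧ PS G D K ∧ PT G D K := by
  apply exists_seq (fun K D => G.K0 ≤ K → PH G D K ∧ PS G D K ∧ PT G D K)
  · intro K f g hfg h hK
    obtain ⟨h1, h2, h3⟩ := h hK
    exact ⟨h1.congr hfg, h2.congr hfg, h3.congr hfg⟩
  · intro K D hD
    by_cases hK : G.K0 ≤ K
    · have hD' : ∀ K', G.K0 ≤ K' → K' < K → PH G D K' ∧ PS G D K' ∧ PT G D K' :=
        fun K' h1 h2 => hD K' h2 h1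
      obtain ⟨H, hH⟩ := stepH D hK hD'
      obtain ⟨S, hS⟩ := stepS D hK hD' H hH
      obtain ⟨T, hT⟩ := stepT D hK hD' H S (hH S) hS
      exact ⟨⟨H, S, T⟩, fun _ => ⟨hH S T, hS T, hT⟩⟩
    · exact ⟨default, fun h => absurd h hK⟩

end

end Pool.Agent.E2
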