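import Mathlib
import Pool.Agent.E2S.Above
import Pool.Agent.Helper5.ETP.CutMk

/-!
# E-T (MP_12a1af_nt), phase 2: a zone of `P` type of `K` which contains `K'` (field CUTP)

Port of `Helper5/ETP/FarCut`, `Helper5/ETP/FarP` (helper5) to the merged part of the layouts.
-/

set_option autoImplicit false

open Finset

namespace Pool.Agent.E2S.CP

open Pool.Agent.ETS hiding Desc IsDesc Occ ddist pidx Wd_pos
open Pool.Agent.Helper29.ETK (Kid CC lg one_lt_CC le_lg lg_le lt_lg lg_lt)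
open Pool.Agent.Helper29.E2 (kid wb ep Wd av ab ag ak gth epo Wd_pos j0)
open Pool.Agent.E2 (pidx isPT Desc IsDesc Occ ddist)
open Pool.Agent.ETP (phiV)
open Pool.Agent.Helper83.ET
open Pool.Agent.Helper5.ETP

/-- from a power of two to the far bound -/
lemma farOK_pow {C : Codes} {c K K' m : ℕ} {r0 r1 r0' r1' : Reg} {y : ℝ}
    (hB : ∀ n Z Z', ZoneOf C r0 r1 Z → ZoneOf C r0' r1' Z' → (zcons K K' n Z Z').card ≤ 2 ^ m)
    (hφ : phiV K K' (r1.top C) (r1'.top C) = (2:ℝ) ^ y)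
    (h : (m : ℝ) + y ≤ -((gth c K / (8 * CC c) : ℕ) : ℝ)) : FarOK C c K K' r0 r1 r0' r1' :=
  ⟨2 ^ m, hB, fin_le (x := (m : ℝ)) (by push_cast; rw [Real.rpow_natCast]) hφ h⟩

/-- the data of a zone of `P` type which contains `K'` -/
structure CutData (c : ℕ) (C : Codes) (K K' : ℕ) (r0 r1 : Reg) (p f b w ws A E : ℕ) : Prop where
  hc : 20 ≤ CC c
  code : PCode (C.X p) (C.P p)
  fb : f ≤ b
  top : r1.top C = b + w
  pz : ∀ Z, ZoneOf C r0 r1 Z → PZ C p f b w Z
  g : K' + gth c K ≤ K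
  f1 : f ≤ K'
  k1 : K' ≤ b + w
  A5 : b + w + 5 * A ≤ K
  len : b + w ≤ f + CC c * A
  E64 : 64 * CC c * E ≤ A
  ww : w ≤ ws
  ws : 100 * CC c * (ws + 20) ≤ A
  cut : ∀ l, 2 * A ≤ l → l ≤ CC c * A → CutBd (C.X p) (C.P p) l E

section

variable {c : ℕ} {C : Codes} {K K' : ℕ} {r0 r1 r0' r1' : Reg} {p f b w ws A E : ℕ}

/-- short zones: the trivial bound -/
lemma CutData.short (D : CutData c C K K' r0 r1 p f b w ws A E) (hs : b - f < 2 * A) {al' : ℕ}
    (ht' : r1'.top C = al') (hal' : al' ≤ K')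
    (hZ' : ∀ Z', ZoneOf C r0' r1' Z' → Zone.Ok Z' ∧ Z'.top = al') :
    FarOK C c K K' r0 r1 r0' r1' := by
  have hfb := D.fb
  have hA5 := D.A5
  have hk1 := D.k1
  have hf1 := D.f1
  have hlen := D.len
  refine farOK_pow (m := 2 + (b - f + 1) / 2 + w / 2) ?_
    (by rw [D.top, ht']; exact phiV_eq_of_cut D.k1 (by omega) hal') ?_
  · intro n Z Z' hZ hZZ'
    obtain ⟨ok', tp'⟩ := hZ' Z' hZZ'
    refine ((D.pz Z hZ).triv D.code ok' (by omega) (by omega) (by omega)).trans (le_of_eq ?_)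
    rw [pow_add, pow_add]
    norm_num
  · refine num_cut (A := A) (E := E) (w := ws) (X := 0) D.hc D.g D.k1 hal' D.A5 (by omega)
      D.E64 D.ws (by omega) (Or.inr (Or.inr ⟨?_, ?_⟩))
    · have := D.ww; omega
    · have := D.ww; omega

/-- **(CUT)**, no information on the low digits -/
theorem CutData.none (D : CutData c C K K' r0 r1 p f b w ws A E) {al' : ℕ}
    (ht' : r1'.top C = al') (hal' : al' ≤ K')
    (hZ' : ∀ Z', ZoneOf C r0' r1' Z' → Zone.Ok Z' ∧ Z'.top = al')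
    (hX : (10 * CC c + 9) * (al' - f) ≤ 10 * CC c * (K - K')) :
    FarOK C c K K' r0 r1 r0' r1' := by
  have hfb := D.fb
  have hA5 := D.A5
  have hk1 := D.k1
  have hf1 := D.f1
  have hlen := D.len
  have hww := D.ww
  rcases lt_or_ge (b - f) (2 * A) with hs | hs
  · exact D.short hs ht' hal' hZ'
  rcases le_or_gt K' b with hKb | hKb
  · -- `K' ≤ b`
    obtain ⟨k, hk⟩ : ∃ k, K' = f + k := ⟨K' - f, by omega⟩
    have hcb := D.cut (b - f) hs (by omega)
    refine farOK_pow (m := E + 5 + ((b - f + 1) / 2 + 1 - (b - f - k))) ?_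
      (by rw [D.top, ht']; exact phiV_eq_of_cut D.k1 (by omega) hal') ?_
    · intro n Z Z' hZ hZZ'
      obtain ⟨ok', tp'⟩ := hZ' Z' hZZ'
      have h1 := (D.pz Z hZ).cutAll (K := K) (n := n) D.code hfb hcb ok'
        (show k ≤ b - f by omega) (by omega) (by omega)
      rw [← hk] at h1
      refine h1.trans ?_
      have h2 := eight_le E ((b - f + 1) / 2) (b - f - k)
      have h3 : 2 ^ (E + 5 + ((b - f + 1) / 2 + 1 - (b - f - k))) =
          2 * 2 ^ (E + 4 + ((b - f + 1) / 2 + 1 - (b - f - k))) := by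
        rw [← pow_succ']; congr 1; omega
      rw [h3]
      omega
    · refine num_cut (A := A) (E := E) (w := ws) (X := al' - f) D.hc D.g D.k1 hal' D.A5
        (by omega) D.E64 D.ws hX ?_
      omega
  · -- the block contains `K'`
    refine farOK_pow (m := 2 + (b - f + 1) / 2 + w / 2) ?_
      (by rw [D.top, ht']; exact phiV_eq_of_cut D.k1 (by omega) hal') ?_
    · intro n Z Z' hZ hZZ'
      obtain ⟨ok', tp'⟩ := hZ' Z' hZZ'
      refine ((D.pz Z hZ).triv D.code ok' (by omega) (by omega) (by omega)).trans (le_of_eq ?_)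
      rw [pow_add, pow_add]
      norm_num
    · refine num_cut (A := A) (E := E) (w := ws) (X := al' - f) D.hc D.g D.k1 hal' D.A5
        (by omega) D.E64 D.ws hX ?_
      omega

/-- **(CUT)**, known digits below `lo'` -/
theorem CutData.low (D : CutData c C K K' r0 r1 p f b w ws A E) {lo' al' X : ℕ}
    (ht' : r1'.top C = al') (hal' : al' ≤ K') (hlo : f ≤ lo') (hle : lo' ≤ al')
    (hZ' : ∀ Z', ZoneOf C r0' r1' Z' → Zone.Ok Z' ∧ Z'.top = al' ∧ ∃ r, Zone.Low Z' lo' r)
    (hblk : b < K' → lo' ≤ b) (hx : al' + f ≤ 2 * lo' + X + ws)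
    (hX : (10 * CC c + 9) * X ≤ 10 * CC c * (K - K')) :
    FarOK C c K K' r0 r1 r0' r1' := by
  have hfb := D.fb
  have hA5 := D.A5
  have hk1 := D.k1
  have hf1 := D.f1
  have hlen := D.len
  have hww := D.ww
  rcases lt_or_ge (b - f) (2 * A) with hs | hs
  · exact D.short hs ht' hal' (fun Z' h => ⟨(hZ' Z' h).1, (hZ' Z' h).2.1⟩)
  obtain ⟨j, hj⟩ : ∃ j, lo' = f + j := ⟨lo' - f, by omega⟩
  rcases le_or_gt K' b with hKb | hKb
  · obtain ⟨k, hk⟩ : ∃ k, K' = f + k := ⟨K' - f, by omega⟩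
    have hcb := D.cut (b - f) hs (by omega)
    refine farOK_pow (m := E + 4 + ((b - f + 1) / 2 - j + 1 - (b - f - k))) ?_
      (by rw [D.top, ht']; exact phiV_eq_of_cut D.k1 (by omega) hal') ?_
    · intro n Z Z' hZ hZZ'
      obtain ⟨ok', tp', r, hr⟩ := hZ' Z' hZZ'
      rw [hj] at hr
      have h1 := (D.pz Z hZ).cutB (K := K) (n := n) D.code hfb hcb ok' hr
        (show k ≤ b - f by omega) (by omega) (by omega) (by omega)
      rw [← hk] at h1
      exact h1.trans (eight_le E ((b - f + 1) / 2 - j) (b - f - k))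
    · refine num_cut (A := A) (E := E) (w := ws) (X := X) D.hc D.g D.k1 hal' D.A5
        (by omega) D.E64 D.ws hX ?_
      omega
  · have hlb := hblk hKb
    refine farOK_pow (m := 1 + ((b - f + 1) / 2 - j) + w / 2) ?_
      (by rw [D.top, ht']; exact phiV_eq_of_cut D.k1 (by omega) hal') ?_
    · intro n Z Z' hZ hZZ'
      obtain ⟨ok', tp', r, hr⟩ := hZ' Z' hZZ'
      rw [hj] at hr
      refine ((D.pz Z hZ).lowB D.code ok' hr (by omega) (by omega) (by omega) (by omega)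
        (by omega)).trans ?_
      rw [pow_add]
      refine Nat.mul_le_mul_right _ ?_
      rw [add_comm 1, pow_succ]
      have : 0 < 2 ^ ((b - f + 1) / 2 - j) := by positivity
      omega
    · refine num_cut (A := A) (E := E) (w := ws) (X := X) D.hc D.g D.k1 hal' D.A5
        (by omega) D.E64 D.ws hX ?_
      omega

/-- **(CUT)**, the same anchor -/
theorem CutData.same (D : CutData c C K K' r0 r1 p f b w ws A E) {j al' : ℕ}
    (ht' : r1'.top C = al') (hal' : al' ≤ K') (h1 : f + j ≤ al') (h2 : al' ≤ f + j + ws)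
    (hZ' : ∀ Z', ZoneOf C r0' r1' Z' → Zone.Ok Z' ∧ Z'.top = al' ∧
      ∃ g, PRep (C.X p) (C.P p) f j g Z'.S)
    (hblk : b < K' → f + j ≤ b) :
    FarOK C c K K' r0 r1 r0' r1' := by
  have hfb := D.fb
  have hA5 := D.A5
  have hk1 := D.k1
  have hf1 := D.f1
  have hlen := D.len
  have hww := D.ww
  rcases lt_or_ge (b - f) (2 * A) with hs | hs
  · exact D.short hs ht' hal' (fun Z' h => ⟨(hZ' Z' h).1, (hZ' Z' h).2.1⟩)
  rcases le_or_gt K' b with hKb | hKb
  · obtain ⟨k, hk⟩ : ∃ k, K' = f + k := ⟨K' - f, by omega⟩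
    have hcb := D.cut (b - f) hs (by omega)
    refine farOK_pow (m := E + 4 + ((b - f - j) / 2 + 4 - (b - f - k))) ?_
      (by rw [D.top, ht']; exact phiV_eq_of_cut D.k1 (by omega) hal') ?_
    · intro n Z Z' hZ hZZ'
      obtain ⟨ok', tp', g, hr⟩ := hZ' Z' hZZ'
      have h1 := (D.pz Z hZ).cutA (K := K) (n := n) D.code hfb hcb ok' hr
        (show k ≤ b - f by omega) (by omega) (by omega) (by omega)
      rw [← hk] at h1
      exact h1.trans (eight_le' E ((b - f - j) / 2 + 4) (b - f - k))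
    · refine num_cut (A := A) (E := E) (w := ws) (X := 0) D.hc D.g D.k1 hal' D.A5
        (by omega) D.E64 D.ws (by omega) ?_
      omega
  · have hlb := hblk hKb
    refine farOK_pow (m := (b - f - j) / 2 + 4 + w / 2) ?_
      (by rw [D.top, ht']; exact phiV_eq_of_cut D.k1 (by omega) hal') ?_
    · intro n Z Z' hZ hZZ'
      obtain ⟨ok', tp', g, hr⟩ := hZ' Z' hZZ'
      refine ((D.pz Z hZ).lowA D.code hfb ok' hr (by omega) (by omega) (by omega) (by omega)
        (by omega)).trans (le_of_eq ?_)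
      rw [← pow_add]
    · refine num_cut (A := A) (E := E) (w := ws) (X := 0) D.hc D.g D.k1 hal' D.A5
        (by omega) D.E64 D.ws (by omega) ?_
      omega

end

/-- code properties of the cut -/
structure PFar (c : ℕ) (C : Codes) : Prop where
  code : ∀ p, PCode (C.X p) (C.P p)
  cut : ∀ p j l, max 9 (p + 7) < j → 2 * CC c ^ (j-1) ≤ l → l ≤ CC c ^ j →
    CutBd (C.X p) (C.P p) l (CC c ^ (j-2) / 64)

section

variable {C : Codes} {c t : ℕ}

/-- epochs are constant on units -/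
lemma ep_unit (hc : 10 ≤ c) {b s : ℕ} (hb : Wd c b ∣ b) (h1 : b ≤ s) (h2 : s < b + Wd c b) :
    ep c s = ep c b := by
  have h3 : b + Wd c b ≤ CC c ^ (lg c b + 1) := by
    have d1 : Wd c b ∣ CC c ^ (lg c b + 1) := pow_dvd_pow _ (by unfold ep; omega)
    have h4 := lt_lg hc b
    have h5 := Nat.le_of_dvd (by omega) (Nat.dvd_sub d1 hb)
    omega
  have h6 : lg c s < lg c b + 1 := lg_lt (by omega) (by omega)
  have h7 : lg c b ≤ lg c s := Nat.log_mono_right h1
  unfold ep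
  have : lg c s = lg c b := by omega
  rw [this]

/-- no aligned position inside a unit -/
lemma not_inside (hc : 10 ≤ c) {b s : ℕ} (hb : Wd c b ∣ b) (hs : Wd c s ∣ s) (h1 : b < s) :
    b + Wd c b ≤ s := by
  by_contra hcon
  push Not at hcon
  have h2 := ep_unit hc hb h1.le hcon
  have h3 : Wd c s = Wd c b := by unfold Wd; rw [h2]
  rw [h3] at hs
  have h4 := Nat.le_of_dvd (by omega) (Nat.dvd_sub hs hb)
  omega

/-- the bottoms of the zones are aligned -/
lemma lo_dvd {e1 : ℕ} (hc : 1 ≤ c) (H : OneK c e1 t) {d : Desc} {r0 r1 : Reg}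
    (hd : IsDesc c t d r0 r1) : Wd c d.lo ∣ d.lo := by
  cases d with
  | P g e =>
    obtain ⟨rfl, h1, h2, h3, h4, h5⟩ := hd
    have hcut : KCut c t e := by
      rcases h5 with h | h
      · exact Or.inr (Or.inl h)
      · refine Or.inr (Or.inr ?_)
        rw [h4 (e - 1) (by omega) (by omega)]
        exact fun h' => h h'.symm
    have h6 := (H.S.P g g (by omega) (h4 g le_rfl h2) e h2 h3 hcut
      (fun s' h7 h8 => h4 s' h7 h8)).2
    exact (Wd_dvd (show g ≤ e - 1 by omega)).trans h6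
  | PT g b =>
    obtain ⟨rfl, h1, h2, h3, h4, h5, -⟩ := hd
    obtain ⟨d1, d2, -, -, -, -⟩ := desc_PT H hc h2 (by omega) h5
    exact (Wd_dvd h2).trans d2
  | RS g b v =>
    obtain ⟨rfl, rfl, h1, h2, h3, h4, h5, -⟩ := hd
    exact (desc_PT H hc h2 (by omega) h5).1
  | R b v =>
    obtain ⟨rfl, h1, h2, h3, h4, h5⟩ := hd
    have hkb := h4 b le_rfl h2
    have hcut : KCut c t b := by
      rcases h5 with h | h
      · exact Or.inl h
      · exact Or.inr (Or.inr (by rw [hkb]; exact h))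
    exact (H.R v b (by omega) hkb hcut).2.1
  | RT b v =>
    obtain ⟨rfl, h1, h2, h3, h4, h5⟩ := hd
    exact (desc_RT H hc h2 h3 h4 h5).1
  | RTh b v =>
    obtain ⟨rfl, h1, h2, h3, h4, h5⟩ := hd
    exact (desc_RTh H hc h2 h3 h4 h5).1

/-- the kinds in a zone of `P` type -/
lemma kid_of_P {d : Desc} {r0 r1 : Reg} (hd : IsDesc c t d r0 r1) (hP : d.IsP) {s : ℕ}
    (h1 : d.lo ≤ s) (h2 : s < d.hi c) :
    kid c t s = .P d.lo ∨ ∃ b, kid c t s = .PT d.lo b := by
  cases d with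
  | P g e =>
    obtain ⟨rfl, -, -, -, h4, -⟩ := hd
    exact Or.inl (h4 s h1 h2)
  | PT g b =>
    obtain ⟨rfl, -, -, -, -, h5, -⟩ := hd
    exact Or.inr ⟨b, h5 s h1 h2⟩
  | RS => exact hP.elim
  | R => exact hP.elim
  | RT => exact hP.elim
  | RTh => exact hP.elim

/-- epochs in a zone of `P` type -/
lemma ep_of_P {e1 : ℕ} (H : OneK c e1 t) {d : Desc} {r0 r1 : Reg} (hd : IsDesc c t d r0 r1)
    (hP : d.IsP) {s : ℕ} (h1 : d.lo ≤ s) (h2 : s < d.hi c) : d.lo = 0 ∨ ep c d.lo = ep c s :=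
  H.S.ep d.lo s (lt_of_lt_of_le h2 (desc_le hd).2) (kid_of_P hd hP h1 h2)

/-- the epoch of a positive anchor -/
lemma ep_anchor {e1 : ℕ} (hc : 1 ≤ c) (H : OneK c e1 t) {d : Desc} {r0 r1 : Reg}
    (hd : IsDesc c t d r0 r1) (hP : d.IsP) (h0 : 0 < d.lo) : e1 ≤ ep c d.lo := by
  have hle := desc_le hd
  have hk := kid_of_P hd hP le_rfl hle.1
  refine H.e1_le hc (H.S.low d.lo h0 (by omega) (Or.inr (Or.inr ?_)))
  intro hcon
  rcases hk with hk | ⟨b, hk⟩
  · rw [hk] at hcon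
    have := (H.K.P (d.lo - 1) d.lo (by omega) hcon).1
    omega
  · rw [hk] at hcon
    have := (H.K.PT (d.lo - 1) d.lo b (by omega) hcon).2.1
    omega

/-- position of the block of a zone of `P` type -/
def bb : Desc → ℕ
  | .P _ e => e
  | .PT _ b => b
  | _ => 0

/-- length of the block of a zone of `P` type -/
def ww (c : ℕ) : Desc → ℕ
  | .PT _ b => Wd c b
  | _ => 0

/-- the position of the block, resp. the top, is aligned -/
lemma bb_dvd {e1 : ℕ} (hc : 1 ≤ c) (H : OneK c e1 t) {d : Desc} {r0 r1 : Reg}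
    (hd : IsDesc c t d r0 r1) (hP : d.IsP) : ∀ x, x < bb d → Wd c x ∣ bb d := by
  cases d with
  | P g e =>
    obtain ⟨rfl, h1, h2, h3, h4, h5⟩ := hd
    have hcut : KCut c t e := by
      rcases h5 with h | h
      · exact Or.inr (Or.inl h)
      · refine Or.inr (Or.inr ?_)
        rw [h4 (e - 1) (by omega) (by omega)]
        exact fun h' => h h'.symm
    have h6 := (H.S.P g g (by omega) (h4 g le_rfl h2) e h2 h3 hcut
      (fun s' h7 h8 => h4 s' h7 h8)).1
    intro x hx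
    have hx' : x < e := hx
    exact (Wd_dvd (show x ≤ e - 1 by omega)).trans h6
  | PT g b =>
    obtain ⟨rfl, h1, h2, h3, h4, h5, -⟩ := hd
    obtain ⟨d1, d2, -, -, -, -⟩ := desc_PT H hc h2 (by omega) h5
    intro x hx
    have hx' : x < b := hx
    exact (Wd_dvd hx'.le).trans d1
  | RS => exact hP.elim
  | R => exact hP.elim
  | RT => exact hP.elim
  | RTh => exact hP.elim

lemma card_le_half {n W : ℕ} (h : n ^ 2 ≤ 2 ^ W) (hW : 2 ∣ W) : n ≤ 2 ^ (W / 2) := by
  have h1 : n ^ 2 ≤ (2 ^ (W / 2)) ^ 2 := by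
    rw [← pow_mul, Nat.div_mul_cancel hW]; exact h
  exact (Nat.pow_le_pow_iff_left (by norm_num)).mp h1

/-- the zones of `P` type as `PZ` -/
lemma pz_desc {e1 : ℕ} (h20 : 1 ≤ e1) (HR : RegCodes c e1 C)
    (hT : ∀ e, e1 ≤ e → (C.T e).card ^ 2 ≤ 2 ^ C.W e) (hc : 1 ≤ c) (H : OneK c e1 t) {d : Desc}
    {r0 r1 : Reg} (hd : IsDesc c t d r0 r1) (hP : d.IsP) :
    d.hi c = bb d + ww c d ∧ d.lo ≤ bb d ∧
    (ww c d = 0 ∧ bb d = d.hi c ∨ (ww c d = Wd c (bb d) ∧
      Wd c (bb d) ∣ bb d)) ∧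
    ∀ Z, ZoneOf C r0 r1 Z → PZ C (pidx c d.lo) d.lo (bb d) (ww c d) Z := by
  have hW : ∀ s, C.W (ep c s) = Wd c s := fun s => HR.W _
  cases d with
  | P g e =>
    obtain ⟨rfl, h1, h2, h3, h4, h5⟩ := hd
    refine ⟨rfl, h2.le, Or.inl ⟨rfl, rfl⟩, fun Z hZ => ?_⟩
    obtain ⟨a, κ, ha, rfl⟩ := zoneOf_notPT h1 hZ
    exact PZ.P a κ ha
  | PT g b =>
    obtain ⟨rfl, h1, h2, h3, h4, h5, -⟩ := hd
    obtain ⟨d1, d2, -, -, d5, -⟩ := desc_PT H hc h2 (by omega) h5
    refine ⟨rfl, h2, Or.inr ⟨rfl, d1⟩, fun Z hZ => ?_⟩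
    obtain ⟨a, κ, ha, rfl⟩ := zoneOf_notPT h1 hZ
    have hev : 2 ∣ C.W (ep c b) := by
      rw [HR.W]
      refine dvd_pow ?_ (by omega)
      unfold CC
      exact dvd_pow_self 2 (by omega)
    have := PZ.PT (C := C) (p := pidx c g) (f := g) (b := b) (ep c b) a κ ha
      (card_le_half (hT _ d5) hev)
    rw [hW] at this
    exact this
  | RS => exact hP.elim
  | R => exact hP.elim
  | RT => exact hP.elim
  | RTh => exact hP.elim

/-- a gap between the anchor and a block -/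
lemma block_gap {e1 K K' : ℕ} (hc : 10 ≤ c) (H : OneK c e1 K) (H' : OneK c e1 K') {d d' : Desc}
    {r0 r1 r0' r1' : Reg} (hd : IsDesc c K d r0 r1) (hd' : IsDesc c K' d' r0' r1') (hP : d.IsP)
    (h1 : d.lo < d'.lo) (h2 : d'.lo < d.hi c) : d.lo + Wd c d'.lo ≤ d'.lo := by
  have a1 := lo_dvd (by omega) H' hd'
  have a2 := lo_dvd (by omega) H hd
  rcases ep_of_P H hd hP h1.le h2 with h0 | h0
  · rw [h0, zero_add]
    exact Nat.le_of_dvd (by omega) a1
  · have h3 : Wd c d.lo = Wd c d'.lo := by unfold Wd; rw [h0]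
    rw [h3] at a2
    have := Nat.le_of_dvd (by omega) (Nat.dvd_sub a1 a2)
    omega

/-- end of the boundary interval -/
lemma Ip_le (d : Desc) (hR : d.IsR) : d.Ip c ≤ d.lo + Wd c d.lo := by
  cases d with
  | P => exact hR.elim
  | PT => exact hR.elim
  | RS g b v => exact le_rfl
  | R b v => exact Nat.le_add_right _ _
  | RT b v => exact le_rfl
  | RTh b v => exact le_rfl

lemma lo_le_Ip (d : Desc) (hR : d.IsR) : d.lo ≤ d.Ip c := by
  cases d with
  | P => exact hR.elim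
  | PT => exact hR.elim
  | RS g b v => exact Nat.le_add_right _ _
  | R b v => exact le_rfl
  | RT b v => exact Nat.le_add_right _ _
  | RTh b v => exact Nat.le_add_right _ _

/-- the sizes of a zone of `P` type which contains `K'` -/
lemma level_desc {K K' : ℕ} (hc : 20 ≤ c) (hF : PFar c C) (hK1 : CC c ^ 100 ≤ K')
    (H : OneK c 40 K) (hk : FarKin c K K') {d : Desc} {r0 r1 : Reg}
    (hd : IsDesc c K d r0 r1) (hP : d.IsP) (h2 : K' < d.hi c) :
    ∃ A E, d.hi c + 5 * A ≤ K ∧ d.hi c ≤ d.lo + CC c * A ∧ 64 * CC c * E ≤ A ∧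
      (∀ s, d.lo ≤ s → s < d.hi c → 100 * CC c * (Wd c s + 20) ≤ A) ∧
      ∀ l, 2 * A ≤ l → l ≤ CC c * A →
        CutBd (C.X (pidx c d.lo)) (C.P (pidx c d.lo)) l E := by
  have hC : 1024 ≤ CC c := le_trans (by norm_num) (CC_ge hc)
  have hC1 := one_lt_CC (show 10 ≤ c by omega)
  have hCp := CC_pos c
  obtain ⟨l, l1, l2, l3, l4, l5⟩ := hk.F5P d ⟨r0, r1, hd⟩ hP
  have hl := desc_le hd
  -- the level is above the epochs
  have key : max 9 (pidx c d.lo + 7) < l ∧ ∀ s, d.lo ≤ s → s < d.hi c → ep c s + 8 ≤ l - 1 := by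
    rcases Nat.eq_zero_or_pos d.lo with h0 | h0
    · have h6 : 100 < l := by
        by_contra hcon
        push Not at hcon
        have : CC c ^ l ≤ CC c ^ 100 := Nat.pow_le_pow_right hCp hcon
        omega
      constructor
      · rw [h0]
        simp only [pidx, if_true]
        omega
      · intro s _ hs
        have h7 : lg c s < l := lg_lt (by omega) (by omega)
        unfold ep
        omega
    · have h6 := l4 h0
      have h7 : j0 c d.lo ≤ l - 1 := (Nat.pow_le_pow_iff_right hC1).mp h6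
      have h8 := ep_anchor (by omega) H hd hP h0
      unfold j0 at h7
      constructor
      · simp only [pidx, if_neg (show d.lo ≠ 0 by omega)]
        omega
      · intro s hs1 hs2
        rcases ep_of_P H hd hP hs1 hs2 with h9 | h9
        · omega
        · omega
  obtain ⟨k1, k2⟩ := key
  have hl1 : CC c ^ l = CC c * CC c ^ (l - 1) := by
    rw [← pow_succ']; congr 1; omega
  have hl2 : CC c ^ (l - 1) = CC c * CC c ^ (l - 2) := by
    rw [← pow_succ']; congr 1; omega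
  refine ⟨CC c ^ (l - 1), CC c ^ (l - 2) / 64, l3, ?_, ?_, ?_, ?_⟩
  · rw [← hl1]; omega
  · rw [hl2]
    have : CC c ^ (l - 2) / 64 * 64 ≤ CC c ^ (l - 2) := Nat.div_mul_le_self _ _
    calc 64 * CC c * (CC c ^ (l - 2) / 64) = CC c * (CC c ^ (l - 2) / 64 * 64) := by ring
      _ ≤ _ := Nat.mul_le_mul_left _ this
  · intro s hs1 hs2
    have h3 := k2 s hs1 hs2
    have hW := Wd_pos c s
    have h4 : CC c ^ 8 * Wd c s ≤ CC c ^ (l - 1) := by
      unfold Wd
      rw [← pow_add]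
      exact Nat.pow_le_pow_right hCp (by omega)
    refine le_trans ?_ h4
    have h5 : 100 * CC c * 21 ≤ CC c ^ 8 := by
      calc 100 * CC c * 21 ≤ CC c ^ 3 * CC c := by
            have : 2100 ≤ CC c ^ 3 := by
              calc 2100 ≤ 1024 ^ 3 := by norm_num
                _ ≤ CC c ^ 3 := Nat.pow_le_pow_left hC 3
            nlinarith
        _ = CC c ^ 4 := by ring
        _ ≤ CC c ^ 8 := Nat.pow_le_pow_right hCp (by norm_num)
    calc 100 * CC c * (Wd c s + 20) ≤ 100 * CC c * (21 * Wd c s) :=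
          Nat.mul_le_mul_left _ (by omega)
      _ = 100 * CC c * 21 * Wd c s := by ring
      _ ≤ _ := Nat.mul_le_mul_right _ h5
  · intro l' h3 h4
    exact hF.cut _ l l' k1 h3 (by rw [hl1]; exact h4)

/-- **The field CUTP.** -/
theorem farCUTP {K K' E : ℕ} (hc : 20 ≤ c) (hF : PFar c C) (HF : FarCodes c 40 C (gth c K) E)
    (hK1 : CC c ^ 100 ≤ K') (hg : K' + gth c K ≤ K) (H : OneK c 40 K) (H' : OneK c 40 K')
    (hk : FarKin c K K') {d : Desc} {r0 r1 r0' r1' : Reg}
    (hd : IsDesc c K d r0 r1) (h' : HasDesc c K' r0' r1') (hP : d.IsP) (h1 : d.lo < K')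
    (h2 : K' < d.hi c) : FarOK C c K K' r0 r1 r0' r1' := by
  obtain ⟨A, E0, a1, a2, a3, a4, a5⟩ := level_desc hc hF hK1 H hk hd hP h2
  obtain ⟨b1, b2, b3, b4⟩ := pz_desc (by norm_num) HF.reg HF.T (by omega) H hd hP
  have t1 := top_desc HF.reg hd
  have hle := desc_le hd
  have hwK' := H'.K.wbt
  have hC : 1024 ≤ CC c := le_trans (by norm_num) (CC_ge hc)
  have hE6 : 6 ≤ epo c K' := by
    have := le_lg (show 10 ≤ c by omega) hK1
    unfold epo
    omega
  obtain ⟨b, hb⟩ : ∃ b, b = bb d := ⟨_, rfl⟩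
  obtain ⟨w, hw⟩ : ∃ w, w = ww c d := ⟨_, rfl⟩
  rw [← hb, ← hw] at b1 b3 b4
  rw [← hb] at b2
  -- the slack
  obtain ⟨ws, hws⟩ : ∃ ws, ws = Wd c (d.hi c - 1) := ⟨_, rfl⟩
  have hws2 : 100 * CC c * (ws + 20) ≤ A := by
    rw [hws]
    exact a4 _ (by omega) (by omega)
  have hWs : ∀ s, s < d.hi c → Wd c s ≤ ws := by
    intro s hs
    rw [hws]
    exact Nat.le_of_dvd (Wd_pos c _) (Wd_dvd (by omega))
  have hwws : w ≤ ws := by
    rcases b3 with ⟨h3, -⟩ | ⟨h3, -⟩
    · omega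
    · rw [h3]
      have := Wd_pos c b
      exact hWs b (by omega)
  have hWws : Wd c d.lo ≤ ws := hWs _ hle.1
  have D : CutData c C K K' r0 r1 (pidx c d.lo) d.lo b w ws A E0 :=
    { hc := by omega
      code := hF.code _
      fb := b2
      top := by rw [t1, b1]
      pz := b4
      g := hg
      f1 := h1.le
      k1 := by omega
      A5 := by omega
      len := by omega
      E64 := a3
      ww := hwws
      ws := hws2
      cut := a5 }
  -- aligned positions below `K'` are not inside the block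
  have hins : ∀ s, (∀ x, x < s → Wd c x ∣ s) → s ≤ K' → b < K' → s ≤ b := by
    intro s hs hsK hbK
    rcases b3 with ⟨h3, h4⟩ | ⟨h3, h4⟩
    · omega
    · by_contra hcon
      push Not at hcon
      have h5 := Nat.le_of_dvd (by omega) (Nat.dvd_sub (hs b hcon) h4)
      omega
  obtain ⟨d', hd'⟩ := h'
  have hoc : Occ c K d := ⟨r0, r1, hd⟩
  have hoc' : Occ c K' d' := ⟨r0', r1', hd'⟩
  have t2 := top_desc HF.reg hd'
  have hle' := desc_le hd'
  have z2 : ∀ Z, ZoneOf C r0' r1' Z → ZFacts Z d'.lo (d'.hi c) := fun Z hZ =>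
    zfacts_desc HF.reg HF.T (by omega) H' hd' hZ
  have hlam : d'.hi c ≤ d.lo ∨ d.lo ≤ d'.lo := by
    rcases Nat.lt_or_ge (wb c K') d.lo with h5 | h5
    · left; omega
    · exact hk.lamP d d' hoc hoc' hP h5
  rcases hlam with h5 | h5
  · refine D.none t2 (by omega) (fun Z' h => ⟨(z2 Z' h).ok, (z2 Z' h).top⟩) ?_
    have : d'.hi c - d.lo = 0 := by omega
    rw [this]
    omega
  have hRP' : d'.IsR ∨ d'.IsP := by cases d' <;> simp [Pool.Agent.E2.Desc.IsR, Pool.Agent.E2.Desc.IsP]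
  rcases hRP' with hR' | hP'
  · have h6 := hk.F1 d d' hoc hoc' hP hR' h5
    have i1 := Ip_le (c := c) d' hR'
    have i2 := lo_le_Ip (c := c) d' hR'
    refine D.low (lo' := d'.lo) (X := d.hi c - d'.Ip c) t2 (by omega) h5 hle'.1.le
      (fun Z' h => ⟨(z2 Z' h).ok, (z2 Z' h).top, (z2 Z' h).low⟩)
      (hins _ (fun x hx => (Wd_dvd hx.le).trans (lo_dvd (by omega) H' hd')) (by omega)) ?_ h6
    rcases Nat.eq_or_lt_of_le h5 with h7 | h7
    · rw [← h7] at i1 ⊢
      omega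
    · have h8 := block_gap (by omega) H H' hd hd' hP h7 (by omega)
      omega
  · rcases Nat.eq_or_lt_of_le h5 with h7 | h7
    · -- same anchor
      obtain ⟨c1, c2, c3, c4⟩ := pz_desc (by norm_num) HF.reg HF.T (by omega) H' hd' hP'
      have c5 := bb_dvd (by omega) H' hd' hP'
      rw [← h7] at c2 c4
      refine D.same (j := bb d' - d.lo) t2 (by omega) (by omega) ?_ ?_ ?_
      · have h8 : ww c d' ≤ ws := by
          rcases c3 with ⟨c6, -⟩ | ⟨c6, -⟩
          · omega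
          · rw [c6]
            have := Wd_pos c (bb d')
            exact hWs _ (by omega)
        omega
      · intro Z' h
        exact ⟨(z2 Z' h).ok, (z2 Z' h).top, PZ.rep (hF.code _) (c4 Z' h) c2⟩
      · intro hbK
        have h8 : bb d' ≤ b := hins _ c5 (by omega) hbK
        omega
    · have h6 := hk.F1P d d' hoc hoc' hP hP' h7
      refine D.low (lo' := d'.lo) (X := d.hi c - d'.lo) t2 (by omega) h5 hle'.1.le
        (fun Z' h => ⟨(z2 Z' h).ok, (z2 Z' h).top, (z2 Z' h).low⟩)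
        (hins _ (fun x hx => (Wd_dvd hx.le).trans (lo_dvd (by omega) H' hd')) (by omega))
        (by omega) h6
/-- the cut property of the codes -/
theorem pfar_of {D : Codes} (H : CodeFacts c D) (hc : 20 ≤ c) : PFar c D := by
  have h := Pool.Agent.Helper5.ETP.pfar_mk (TK := fun _ => ∅) hc
  have eX : ∀ p, D.X p = (mk (CC c) (fun _ => ∅)).X p := fun p => funext (H.X p)
  have eP : ∀ p, D.P p = (mk (CC c) (fun _ => ∅)).P p :=
    fun p => funext fun l => funext fun x => H.P p l x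
  exact ⟨fun p => by rw [eX, eP]; exact h.code p,
    fun p j l h1 h2 h3 => by rw [eX, eP]; exact h.cut p j l h1 h2 h3⟩

end

end Pool.Agent.E2S.CP

namespace Pool.Agent.E2S

open Pool.Agent.ETS (Codes Reg)
open Pool.Agent.E2 (Desc IsDesc)

/-- **The field CUTP of `FarCases4`.** -/
theorem CUTP_mk {c : ℕ} {D : Codes} {K K' : ℕ} (hyp : CaseHyp c D K K') :
    ∀ d r0 r1 r0' r1', IsDesc c K d r0 r1 → HasDesc c K' r0' r1' → d.IsP → d.lo < K' →
      K' < d.hi c → FarOK D c K K' r0 r1 r0' r1' := by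
  intro d r0 r1 r0' r1' hd h' hP h1 h2
  have hc := hyp.c20
  have hepo : 40 ≤ Pool.Agent.Helper29.E2.epo c K := by have := hyp.epo; omega
  exact CP.farCUTP hc (CP.pfar_of hyp.D hc) (farCodes_of hyp.D hc hepo) hyp.K1 hyp.g hyp.O hyp.O'
    hyp.F hd h' hP h1 h2

end Pool.Agent.E2S
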