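import Pool.Agent.Helper83.ET.Rand

/-!
# Random sets with few hits

`N` points of `[0, M)`; tests: few points in a set `Q`, few disjoint pairs with a sum in a set `Y`.
-/

set_option autoImplicit false

namespace Pool.Agent.E2

open Finset Pool.Agent.Helper83.ET

/-- `m ^ m ≤ 4 ^ m * m!` -/
theorem self_pow_le (m : ℕ) : m ^ m ≤ 4 ^ m * m.factorial := by
  have h1 : (m + 1) ^ m ≤ (m + 1).ascFactorial m := Nat.pow_succ_le_ascFactorial _ _
  rw [Nat.ascFactorial_eq_factorial_mul_choose] at h1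
  have h2 : (m + m).choose m ≤ 2 ^ (m + m) := Nat.choose_le_two_pow _ _
  have h3 : (2 : ℕ) ^ (m + m) = 4 ^ m := by
    rw [← two_mul, pow_mul]; norm_num
  calc m ^ m ≤ (m + 1) ^ m := Nat.pow_le_pow_left (Nat.le_succ m) m
    _ ≤ m.factorial * (m + m).choose m := h1
    _ ≤ m.factorial * 4 ^ m := Nat.mul_le_mul_left _ (h3 ▸ h2)
    _ = 4 ^ m * m.factorial := Nat.mul_comm _ _

/-- `m ^ m * C(N, m) ≤ (4 N) ^ m` -/
theorem self_pow_mul_choose_le (N m : ℕ) : m ^ m * N.choose m ≤ (4 * N) ^ m := by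
  have h1 := self_pow_le m
  have h2 : m.factorial * N.choose m ≤ N ^ m := by
    rw [← Nat.descFactorial_eq_factorial_mul_choose]
    exact Nat.descFactorial_le_pow N m
  calc m ^ m * N.choose m ≤ 4 ^ m * m.factorial * N.choose m := Nat.mul_le_mul_right _ h1
    _ = 4 ^ m * (m.factorial * N.choose m) := by ring
    _ ≤ 4 ^ m * N ^ m := Nat.mul_le_mul_left _ h2
    _ = (4 * N) ^ m := (mul_pow _ _ _).symm

/-- Many points in a fixed set (binomial form). -/
theorem hits_card' (N M m : ℕ) (Q : Finset ℕ) :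
    ((Om N M).filter (fun t => m ≤ (univ.filter (fun i => t i ∈ Q)).card)).card * M ^ m ≤
      N.choose m * Q.card ^ m * M ^ N := by
  classical
  let D : Finset (Fin N) → Finset (Fin N → ℕ) := fun I =>
    Fintype.piFinset (fun i => if i ∈ I then Q else Finset.range M)
  have hsub : (Om N M).filter (fun t => m ≤ (Finset.univ.filter (fun i => t i ∈ Q)).card) ⊆
      (Finset.powersetCard m (Finset.univ : Finset (Fin N))).biUnion D := by
    intro t ht
    rw [Finset.mem_filter, mem_Om] at ht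
    obtain ⟨I, hI, hIc⟩ := Finset.exists_subset_card_eq ht.2
    rw [Finset.mem_biUnion]
    refine ⟨I, Finset.mem_powersetCard.mpr ⟨Finset.subset_univ _, hIc⟩, ?_⟩
    show t ∈ Fintype.piFinset (fun i => if i ∈ I then Q else Finset.range M)
    rw [Fintype.mem_piFinset]
    intro i
    split_ifs with h
    · exact (Finset.mem_filter.mp (hI h)).2
    · exact Finset.mem_range.mpr (ht.1 i)
  have hD : ∀ I ∈ Finset.powersetCard m (Finset.univ : Finset (Fin N)),
      (D I).card * M ^ m = Q.card ^ m * M ^ N := by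
    intro I hI
    have hIc := (Finset.mem_powersetCard.mp hI).2
    have hmN : m ≤ N := by
      rw [← hIc]
      exact (Finset.card_le_univ I).trans (by simp)
    show (Fintype.piFinset (fun i => if i ∈ I then Q else Finset.range M)).card * M ^ m = _
    rw [Fintype.card_piFinset]
    have h1 : ∀ i : Fin N, (if i ∈ I then Q else Finset.range M).card =
        if i ∈ I then Q.card else M := by
      intro i
      split_ifs
      · rfl
      · exact Finset.card_range M
    rw [Finset.prod_congr rfl (fun i _ => h1 i), Finset.prod_ite]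
    simp only [Finset.prod_const]
    have h2 : (Finset.univ.filter (fun i : Fin N => i ∈ I)).card = m := by
      rw [← hIc]
      congr 1
      ext i
      simp
    have h3 : (Finset.univ.filter (fun i : Fin N => i ∉ I)).card = N - m := by
      have := Finset.card_filter_add_card_filter_not (s := (Finset.univ : Finset (Fin N)))
        (fun i => i ∈ I)
      rw [h2] at this
      simp only [Finset.card_univ, Fintype.card_fin] at this
      omega
    rw [h2, h3, mul_assoc, ← pow_add]
    congr 2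
    omega
  calc _ ≤ ((Finset.powersetCard m (Finset.univ : Finset (Fin N))).biUnion D).card * M ^ m :=
        Nat.mul_le_mul_right _ (Finset.card_le_card hsub)
    _ ≤ (∑ I ∈ Finset.powersetCard m (Finset.univ : Finset (Fin N)), (D I).card) * M ^ m :=
        Nat.mul_le_mul_right _ Finset.card_biUnion_le
    _ = ∑ I ∈ Finset.powersetCard m (Finset.univ : Finset (Fin N)), Q.card ^ m * M ^ N := by
        rw [Finset.sum_mul]
        exact Finset.sum_congr rfl hD
    _ = N.choose m * Q.card ^ m * M ^ N := by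
        rw [Finset.sum_const, Finset.card_powersetCard, mul_assoc]
        simp

/-- pairs of indices, pairwise disjoint -/
def PDisj {N : ℕ} (S : Finset (Fin N × Fin N)) : Prop :=
  (∀ p ∈ S, p.1 ≠ p.2) ∧
    ∀ p ∈ S, ∀ q ∈ S, p ≠ q → p.1 ≠ q.1 ∧ p.1 ≠ q.2 ∧ p.2 ≠ q.1 ∧ p.2 ≠ q.2

/-- Functions with prescribed sums on `m` disjoint pairs. -/
theorem card_pairs_fixed {N M m : ℕ} {S : Finset (Fin N × Fin N)} (hS : S.card = m)
    (hd : PDisj S) (Y : Finset ℕ) :
    ((Om N M).filter (fun t => ∀ q ∈ S, (t q.1 + t q.2) % M ∈ Y)).card * M ^ m ≤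
      Y.card ^ m * M ^ N := by
  classical
  -- split by the values of the sums
  let B := Fintype.piFinset (fun _ : {q // q ∈ S} => Y)
  let G : ({q // q ∈ S} → ℕ) → Finset (Fin N → ℕ) := fun g =>
    (Om N M).filter (fun t => ∀ q : {q // q ∈ S}, (t q.1.1 + t q.1.2) % M = g q)
  have hsub : (Om N M).filter (fun t => ∀ q ∈ S, (t q.1 + t q.2) % M ∈ Y) ⊆ B.biUnion G := by
    intro t ht
    obtain ⟨h1, h2⟩ := Finset.mem_filter.mp ht
    rw [Finset.mem_biUnion]
    refine ⟨fun q => (t q.1.1 + t q.1.2) % M, ?_, ?_⟩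
    · exact Fintype.mem_piFinset.mpr (fun q => h2 q.1 q.2)
    · exact Finset.mem_filter.mpr ⟨h1, fun q => rfl⟩
  have hG : ∀ g, (G g).card * M ^ m ≤ M ^ N := by
    intro g
    apply card_determined (G g) (Finset.filter_subset _ _) (S.image (fun q => q.2))
    · rw [Finset.card_image_of_injOn, hS]
      intro a ha b hb hab
      by_contra hne
      exact (hd.2 a ha b hb hne).2.2.2 hab
    · intro t ht t' ht' hag
      obtain ⟨h1, h2⟩ := Finset.mem_filter.mp ht
      obtain ⟨h1', h2'⟩ := Finset.mem_filter.mp ht'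
      funext i
      by_cases hi : i ∈ S.image (fun q => q.2)
      · obtain ⟨q, hq, rfl⟩ := Finset.mem_image.mp hi
        have hne : q.1 ∉ S.image (fun q => q.2) := by
          intro hmem
          obtain ⟨p, hp, hpq⟩ := Finset.mem_image.mp hmem
          by_cases hpe : p = q
          · subst hpe
            exact hd.1 p hp hpq.symm
          · exact (hd.2 p hp q hq hpe).2.2.1 hpq
        have e1 := hag _ hne
        have e2 := h2 ⟨q, hq⟩
        have e3 := h2' ⟨q, hq⟩
        have e4 : t q.2 ≡ t' q.2 [MOD M] := by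
          have : t q.1 + t q.2 ≡ t q.1 + t' q.2 [MOD M] := by
            rw [Nat.ModEq, e2, e1]
            exact e3.symm
          exact Nat.ModEq.add_left_cancel' _ this
        exact Nat.ModEq.eq_of_lt_of_lt e4 (mem_Om.mp h1 _) (mem_Om.mp h1' _)
      · exact hag i hi
  calc _ ≤ (B.biUnion G).card * M ^ m := Nat.mul_le_mul_right _ (Finset.card_le_card hsub)
    _ ≤ (∑ g ∈ B, (G g).card) * M ^ m := Nat.mul_le_mul_right _ Finset.card_biUnion_le
    _ = ∑ g ∈ B, (G g).card * M ^ m := Finset.sum_mul _ _ _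
    _ ≤ ∑ _g ∈ B, M ^ N := Finset.sum_le_sum (fun g _ => hG g)
    _ = Y.card ^ m * M ^ N := by
        rw [Finset.sum_const, smul_eq_mul]
        congr 1
        show (Fintype.piFinset (fun _ : {q // q ∈ S} => Y)).card = _
        rw [Fintype.card_piFinset, Finset.prod_const, Finset.card_univ, Fintype.card_coe, hS]

open Classical in
/-- Many disjoint pairs with a sum in `Y`. -/
theorem pairs_card' (N M m : ℕ) (Y : Finset ℕ) :
    ((Om N M).filter (fun t => ∃ S : Finset (Fin N × Fin N), S.card = m ∧ PDisj S ∧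
      ∀ q ∈ S, (t q.1 + t q.2) % M ∈ Y)).card * M ^ m ≤
      (N * N).choose m * Y.card ^ m * M ^ N := by
  let D : Finset (Fin N × Fin N) → Finset (Fin N → ℕ) := fun S =>
    if PDisj S then (Om N M).filter (fun t => ∀ q ∈ S, (t q.1 + t q.2) % M ∈ Y) else ∅
  have hsub : (Om N M).filter (fun t => ∃ S : Finset (Fin N × Fin N), S.card = m ∧ PDisj S ∧
      ∀ q ∈ S, (t q.1 + t q.2) % M ∈ Y) ⊆
      (Finset.powersetCard m (Finset.univ : Finset (Fin N × Fin N))).biUnion D := by
    intro t ht
    obtain ⟨h1, S, h2, h3, h4⟩ := Finset.mem_filter.mp ht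
    rw [Finset.mem_biUnion]
    refine ⟨S, Finset.mem_powersetCard.mpr ⟨Finset.subset_univ _, h2⟩, ?_⟩
    show t ∈ (if PDisj S then _ else _)
    rw [if_pos h3]
    exact Finset.mem_filter.mpr ⟨h1, h4⟩
  have hD : ∀ S ∈ Finset.powersetCard m (Finset.univ : Finset (Fin N × Fin N)),
      (D S).card * M ^ m ≤ Y.card ^ m * M ^ N := by
    intro S hS
    have hSc := (Finset.mem_powersetCard.mp hS).2
    by_cases hd : PDisj S
    · have : D S = (Om N M).filter (fun t => ∀ q ∈ S, (t q.1 + t q.2) % M ∈ Y) := if_pos hd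
      rw [this]
      exact card_pairs_fixed hSc hd Y
    · have : D S = ∅ := if_neg hd
      rw [this]
      simp
  calc _ ≤ ((Finset.powersetCard m (Finset.univ : Finset (Fin N × Fin N))).biUnion D).card *
        M ^ m := Nat.mul_le_mul_right _ (Finset.card_le_card hsub)
    _ ≤ (∑ S ∈ Finset.powersetCard m (Finset.univ : Finset (Fin N × Fin N)), (D S).card) * M ^ m :=
        Nat.mul_le_mul_right _ Finset.card_biUnion_le
    _ = ∑ S ∈ Finset.powersetCard m (Finset.univ : Finset (Fin N × Fin N)),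
        (D S).card * M ^ m := Finset.sum_mul _ _ _
    _ ≤ ∑ _S ∈ Finset.powersetCard m (Finset.univ : Finset (Fin N × Fin N)),
        Y.card ^ m * M ^ N := Finset.sum_le_sum hD
    _ = (N * N).choose m * Y.card ^ m * M ^ N := by
        rw [Finset.sum_const, Finset.card_powersetCard, mul_assoc]
        simp

open Classical in
/-- **Random sets.**  Tests `Q j` (fewer than `m j` points) and pair tests `Y i` (no `n i` disjoint
pairs with a sum in `Y i`). -/
theorem exists_rs {ι κ : Type*} {N M : ℕ} (hM : 0 < M) (J : Finset ι) (Q : ι → Finset ℕ)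
    (m : ι → ℕ) (I : Finset κ) (Y : κ → Finset ℕ) (n : κ → ℕ)
    (hJ : ∀ j ∈ J, 4 * J.card * (N.choose (m j) * (Q j).card ^ m j) ≤ M ^ m j)
    (hI : ∀ i ∈ I, 4 * I.card * ((N * N).choose (n i) * (Y i).card ^ n i) ≤ M ^ n i)
    (h3 : 4 * (N * N) ≤ M) :
    ∃ T : Finset ℕ, T.card = N ∧ (∀ t ∈ T, t < M) ∧
      (∀ j ∈ J, (T.filter (fun t => t ∈ Q j)).card < m j) ∧
      ∀ i ∈ I, ∀ S : Finset (ℕ × ℕ), (∀ p ∈ S, p.1 ∈ T ∧ p.2 ∈ T ∧ p.1 ≠ p.2 ∧
        (p.1 + p.2) % M ∈ Y i) → (∀ p ∈ S, ∀ q ∈ S, p ≠ q →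
        p.1 ≠ q.1 ∧ p.1 ≠ q.2 ∧ p.2 ≠ q.1 ∧ p.2 ≠ q.2) → S.card < n i := by
  let A : Finset (Fin N → ℕ) := J.biUnion (fun j =>
    (Om N M).filter (fun t => m j ≤ (Finset.univ.filter (fun i => t i ∈ Q j)).card))
  let B : Finset (Fin N → ℕ) := I.biUnion (fun i =>
    (Om N M).filter (fun t => ∃ S : Finset (Fin N × Fin N), S.card = n i ∧ PDisj S ∧
      ∀ q ∈ S, (t q.1 + t q.2) % M ∈ Y i))
  let D : Finset (Fin N → ℕ) := (Om N M).filter (fun t => ¬ Function.Injective t)
  have hMN : 0 < M ^ N := by positivity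
  have key : ∀ (X c a b : ℕ), X * c ≤ b * M ^ N → 4 * a * b ≤ c → 0 < c →
      4 * a * X ≤ M ^ N := by
    intro X c a b h1 h2 hc
    have : 4 * a * X * c ≤ M ^ N * c := by
      calc 4 * a * X * c = 4 * a * (X * c) := by ring
        _ ≤ 4 * a * (b * M ^ N) := Nat.mul_le_mul_left _ h1
        _ = 4 * a * b * M ^ N := by ring
        _ ≤ c * M ^ N := Nat.mul_le_mul_right _ h2
        _ = M ^ N * c := Nat.mul_comm _ _
    exact Nat.le_of_mul_le_mul_right this hc
  have hA : 4 * A.card ≤ M ^ N := by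
    rcases J.eq_empty_or_nonempty with h0 | h0
    · have : A = ∅ := by
        show J.biUnion _ = ∅
        rw [h0]
        exact Finset.biUnion_empty
      rw [this]
      simp
    have hJp : 0 < J.card := h0.card_pos
    have e0 : A.card ≤ ∑ j ∈ J, ((Om N M).filter
        (fun t => m j ≤ (Finset.univ.filter (fun i => t i ∈ Q j)).card)).card :=
      Finset.card_biUnion_le
    have e1 : J.card * (4 * A.card) ≤ J.card * M ^ N := by
      calc J.card * (4 * A.card) ≤ J.card * (4 * ∑ j ∈ J, ((Om N M).filter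
          (fun t => m j ≤ (Finset.univ.filter (fun i => t i ∈ Q j)).card)).card) :=
            Nat.mul_le_mul_left _ (Nat.mul_le_mul_left _ e0)
        _ = ∑ j ∈ J, 4 * J.card * ((Om N M).filter
          (fun t => m j ≤ (Finset.univ.filter (fun i => t i ∈ Q j)).card)).card := by
            rw [← Finset.mul_sum]; ring
        _ ≤ ∑ _j ∈ J, M ^ N := by
            apply Finset.sum_le_sum
            intro j hj
            exact key _ _ _ _ (hits_card' N M (m j) (Q j)) (hJ j hj) (by positivity)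
        _ = J.card * M ^ N := by
            rw [Finset.sum_const, smul_eq_mul]
    exact Nat.le_of_mul_le_mul_left e1 hJp
  have hB : 4 * B.card ≤ M ^ N := by
    rcases I.eq_empty_or_nonempty with h0 | h0
    · have : B = ∅ := by
        show I.biUnion _ = ∅
        rw [h0]
        exact Finset.biUnion_empty
      rw [this]
      simp
    have hIp : 0 < I.card := h0.card_pos
    have e0 : B.card ≤ ∑ i ∈ I, ((Om N M).filter (fun t => ∃ S : Finset (Fin N × Fin N),
        S.card = n i ∧ PDisj S ∧ ∀ q ∈ S, (t q.1 + t q.2) % M ∈ Y i)).card :=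
      Finset.card_biUnion_le
    have e1 : I.card * (4 * B.card) ≤ I.card * M ^ N := by
      calc I.card * (4 * B.card) ≤ I.card * (4 * ∑ i ∈ I, ((Om N M).filter
          (fun t => ∃ S : Finset (Fin N × Fin N),
          S.card = n i ∧ PDisj S ∧ ∀ q ∈ S, (t q.1 + t q.2) % M ∈ Y i)).card) :=
            Nat.mul_le_mul_left _ (Nat.mul_le_mul_left _ e0)
        _ = ∑ i ∈ I, 4 * I.card * ((Om N M).filter (fun t => ∃ S : Finset (Fin N × Fin N),
          S.card = n i ∧ PDisj S ∧ ∀ q ∈ S, (t q.1 + t q.2) % M ∈ Y i)).card := by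
            rw [← Finset.mul_sum]; ring
        _ ≤ ∑ _i ∈ I, M ^ N := by
            apply Finset.sum_le_sum
            intro i hi
            exact key _ _ _ _ (pairs_card' N M (n i) (Y i)) (hI i hi) (by positivity)
        _ = I.card * M ^ N := by
            rw [Finset.sum_const, smul_eq_mul]
    exact Nat.le_of_mul_le_mul_left e1 hIp
  have hD : 4 * D.card ≤ M ^ N := by
    have e1 := not_inj_card N M
    have e2 : 4 * D.card * M ≤ M ^ N * M := by
      calc 4 * D.card * M = 4 * (D.card * M) := by ring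
        _ ≤ 4 * (N * N * M ^ N) := Nat.mul_le_mul_left _ e1
        _ = 4 * (N * N) * M ^ N := by ring
        _ ≤ M * M ^ N := Nat.mul_le_mul_right _ h3
        _ = M ^ N * M := Nat.mul_comm _ _
    exact Nat.le_of_mul_le_mul_right e2 hM
  -- a good choice
  obtain ⟨t, ht, htn⟩ : ∃ t ∈ Om N M, t ∉ A ∪ B ∪ D := by
    by_contra hcon
    push Not at hcon
    have hsub : Om N M ⊆ A ∪ B ∪ D := hcon
    have e1 := Finset.card_le_card hsub
    rw [card_Om] at e1
    have e2 := Finset.card_union_le (A ∪ B) D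
    have e3 := Finset.card_union_le A B
    omega
  rw [Finset.mem_union, Finset.mem_union] at htn
  push Not at htn
  obtain ⟨⟨htA, htB⟩, htD⟩ := htn
  have hinj : Function.Injective t := by
    by_contra h
    exact htD (Finset.mem_filter.mpr ⟨ht, h⟩)
  refine ⟨Finset.univ.image t, ?_, ?_, ?_, ?_⟩
  · rw [Finset.card_image_of_injective _ hinj]
    simp
  · intro x hx
    obtain ⟨i, -, rfl⟩ := Finset.mem_image.mp hx
    exact mem_Om.mp ht i
  · intro j hj
    by_contra hcon
    push Not at hcon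
    apply htA
    refine Finset.mem_biUnion.mpr ⟨j, hj, Finset.mem_filter.mpr ⟨ht, ?_⟩⟩
    refine hcon.trans ?_
    have hsub : (Finset.univ.image t).filter (fun t => t ∈ Q j) ⊆
        (Finset.univ.filter (fun i => t i ∈ Q j)).image t := by
      intro x hx
      obtain ⟨hx1, hx2⟩ := Finset.mem_filter.mp hx
      obtain ⟨i, -, rfl⟩ := Finset.mem_image.mp hx1
      exact Finset.mem_image.mpr ⟨i, Finset.mem_filter.mpr ⟨Finset.mem_univ _, hx2⟩, rfl⟩
    exact (Finset.card_le_card hsub).trans Finset.card_image_le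
  · intro i hi S hS hSd
    by_contra hcon
    push Not at hcon
    apply htB
    refine Finset.mem_biUnion.mpr ⟨i, hi, Finset.mem_filter.mpr ⟨ht, ?_⟩⟩
    obtain ⟨S', hS', hSc⟩ := Finset.exists_subset_card_eq hcon
    have hinv : ∀ x ∈ (Finset.univ.image t), ∃ a, t a = x := by
      intro x hx
      obtain ⟨a, -, h⟩ := Finset.mem_image.mp hx
      exact ⟨a, h⟩
    choose ν hν using hinv
    let g : {p // p ∈ S'} → Fin N × Fin N := fun p =>
      (ν p.1.1 (hS p.1 (hS' p.2)).1, ν p.1.2 (hS p.1 (hS' p.2)).2.1)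
    have hg1 : ∀ p, t (g p).1 = p.1.1 := fun p => hν _ _
    have hg2 : ∀ p, t (g p).2 = p.1.2 := fun p => hν _ _
    have hginj : Function.Injective g := by
      intro a b hab
      apply Subtype.ext
      apply Prod.ext
      · rw [← hg1 a, ← hg1 b, hab]
      · rw [← hg2 a, ← hg2 b, hab]
    refine ⟨Finset.univ.image g, ?_, ⟨?_, ?_⟩, ?_⟩
    · rw [Finset.card_image_of_injective _ hginj, Finset.card_univ, Fintype.card_coe, hSc]
    · intro q hq
      obtain ⟨p, -, rfl⟩ := Finset.mem_image.mp hq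
      intro h
      have := congrArg t h
      rw [hg1, hg2] at this
      exact (hS p.1 (hS' p.2)).2.2.1 this
    · intro q hq q' hq' hne
      obtain ⟨p, -, rfl⟩ := Finset.mem_image.mp hq
      obtain ⟨p', -, rfl⟩ := Finset.mem_image.mp hq'
      have hpp : p.1 ≠ p'.1 := by
        intro h
        exact hne (congrArg g (Subtype.ext h))
      obtain ⟨k1, k2, k3, k4⟩ := hSd p.1 (hS' p.2) p'.1 (hS' p'.2) hpp
      refine ⟨fun h => k1 ?_, fun h => k2 ?_, fun h => k3 ?_, fun h => k4 ?_⟩
      · rw [← hg1 p, ← hg1 p', h]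
      · rw [← hg1 p, ← hg2 p', h]
      · rw [← hg2 p, ← hg1 p', h]
      · rw [← hg2 p, ← hg2 p', h]
    · intro q hq
      obtain ⟨p, -, rfl⟩ := Finset.mem_image.mp hq
      rw [hg1, hg2]
      exact (hS p.1 (hS' p.2)).2.2.2

/-- a sufficient condition for a test, large sets -/
theorem test_large {N M m q a : ℕ} (hq : 8 * (N * q) ≤ m * M) (ha : 4 * a ≤ 2 ^ m)
    : 4 * a * (N.choose m * q ^ m) ≤ M ^ m := by
  have h1 := self_pow_mul_choose_le N m
  rcases Nat.eq_zero_or_pos m with h0 | h0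
  · subst h0
    simpa using ha
  have h2 : m ^ m * 2 ^ m * (N.choose m * q ^ m) ≤ m ^ m * M ^ m := by
    calc m ^ m * 2 ^ m * (N.choose m * q ^ m) = (m ^ m * N.choose m) * (2 ^ m * q ^ m) := by ring
      _ ≤ (4 * N) ^ m * (2 ^ m * q ^ m) := Nat.mul_le_mul_right _ h1
      _ = (8 * (N * q)) ^ m := by
          rw [← mul_pow, ← mul_pow]; congr 1; ring
      _ ≤ (m * M) ^ m := Nat.pow_le_pow_left hq m
      _ = m ^ m * M ^ m := mul_pow _ _ _
  have h3 : 2 ^ m * (N.choose m * q ^ m) ≤ M ^ m := by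
    rw [mul_assoc] at h2
    exact Nat.le_of_mul_le_mul_left h2 (by positivity)
  exact (Nat.mul_le_mul_right _ ha).trans h3

/-- a sufficient condition for a test, small sets -/
theorem test_small {N M m q a d : ℕ} (hq : N * q * 2 ^ d ≤ M) (ha : 4 * a ≤ 2 ^ (d * m))
    : 4 * a * (N.choose m * q ^ m) ≤ M ^ m := by
  calc 4 * a * (N.choose m * q ^ m) ≤ 2 ^ (d * m) * (N ^ m * q ^ m) :=
        Nat.mul_le_mul ha (Nat.mul_le_mul_right _ (Nat.choose_le_pow N m))
    _ = (N * q * 2 ^ d) ^ m := by rw [pow_mul]; rw [mul_pow, mul_pow]; ring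
    _ ≤ M ^ m := Nat.pow_le_pow_left hq m

open Classical in
/-- Few edges when there is no large matching. -/
theorem card_pairs_of_matching {α : Type*} (T : Finset α) (R : α → α → Prop)
    (hsym : ∀ a b, R a b → R b a) {n d e : ℕ}
    (hm : ∀ S : Finset (α × α), (∀ p ∈ S, p.1 ∈ T ∧ p.2 ∈ T ∧ p.1 ≠ p.2 ∧ R p.1 p.2) →
      (∀ p ∈ S, ∀ q ∈ S, p ≠ q → p.1 ≠ q.1 ∧ p.1 ≠ q.2 ∧ p.2 ≠ q.1 ∧ p.2 ≠ q.2) → S.card < n)
    (hd : ∀ a ∈ T, (T.filter (fun b => R a b)).card ≤ d)
    (he : (T.filter (fun a => R a a)).card ≤ e) :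
    ((T ×ˢ T).filter (fun p => R p.1 p.2)).card ≤ 4 * n * d + e := by
  -- a maximal matching
  let P : Finset (Finset (α × α)) := ((T ×ˢ T).powerset).filter (fun S =>
    (∀ p ∈ S, p.1 ≠ p.2 ∧ R p.1 p.2) ∧
      (∀ p ∈ S, ∀ q ∈ S, p ≠ q → p.1 ≠ q.1 ∧ p.1 ≠ q.2 ∧ p.2 ≠ q.1 ∧ p.2 ≠ q.2))
  have hP : P.Nonempty := ⟨∅, by
    simp only [P, Finset.mem_filter, Finset.mem_powerset, Finset.empty_subset, true_and]
    constructor
    · intro p hp
      exact absurd hp (Finset.notMem_empty p)
    · intro p hp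
      exact absurd hp (Finset.notMem_empty p)⟩
  obtain ⟨S, hS, hmax⟩ := Finset.exists_max_image P Finset.card hP
  obtain ⟨h1, h2, h3⟩ := Finset.mem_filter.mp hS
  rw [Finset.mem_powerset] at h1
  have hT : ∀ p ∈ S, p.1 ∈ T ∧ p.2 ∈ T := fun p hp => Finset.mem_product.mp (h1 hp)
  have hn : S.card < n := hm S (fun p hp => ⟨(hT p hp).1, (hT p hp).2, h2 p hp⟩) h3
  let V : Finset α := S.image Prod.fst ∪ S.image Prod.snd
  have hV : V.card ≤ 2 * n := by
    have e1 := Finset.card_union_le (S.image Prod.fst) (S.image Prod.snd)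
    have e2 : (S.image Prod.fst).card ≤ S.card := Finset.card_image_le
    have e3 : (S.image Prod.snd).card ≤ S.card := Finset.card_image_le
    show (S.image Prod.fst ∪ S.image Prod.snd).card ≤ _
    omega
  have hVT : ∀ a ∈ V, a ∈ T := by
    intro a ha
    rcases Finset.mem_union.mp ha with ha | ha
    · obtain ⟨p, hp, rfl⟩ := Finset.mem_image.mp ha
      exact (hT p hp).1
    · obtain ⟨p, hp, rfl⟩ := Finset.mem_image.mp ha
      exact (hT p hp).2
  have hcov : ∀ a ∈ T, ∀ b ∈ T, a ≠ b → R a b → a ∈ V ∨ b ∈ V := by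
    intro a ha b hb hab hR
    by_contra hcon
    push Not at hcon
    have hna : ∀ p ∈ S, a ≠ p.1 ∧ a ≠ p.2 ∧ b ≠ p.1 ∧ b ≠ p.2 := by
      intro p hp
      refine ⟨?_, ?_, ?_, ?_⟩ <;> rintro rfl
      · exact hcon.1 (Finset.mem_union_left _ (Finset.mem_image_of_mem _ hp))
      · exact hcon.1 (Finset.mem_union_right _ (Finset.mem_image_of_mem _ hp))
      · exact hcon.2 (Finset.mem_union_left _ (Finset.mem_image_of_mem _ hp))
      · exact hcon.2 (Finset.mem_union_right _ (Finset.mem_image_of_mem _ hp))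
    have hnot : (a, b) ∉ S := fun h => (hna _ h).1 rfl
    have hin : insert (a, b) S ∈ P := by
      refine Finset.mem_filter.mpr ⟨?_, ?_, ?_⟩
      · rw [Finset.mem_powerset]
        intro p hp
        rcases Finset.mem_insert.mp hp with rfl | hp
        · exact Finset.mem_product.mpr ⟨ha, hb⟩
        · exact h1 hp
      · intro p hp
        rcases Finset.mem_insert.mp hp with rfl | hp
        · exact ⟨hab, hR⟩
        · exact h2 p hp
      · intro p hp q hq hpq
        rcases Finset.mem_insert.mp hp with rfl | hp <;>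
          rcases Finset.mem_insert.mp hq with rfl | hq
        · exact absurd rfl hpq
        · exact hna q hq
        · obtain ⟨k1, k2, k3, k4⟩ := hna p hp
          exact ⟨k1.symm, k3.symm, k2.symm, k4.symm⟩
        · exact h3 p hp q hq hpq
    have := hmax _ hin
    rw [Finset.card_insert_of_notMem hnot] at this
    omega
  have hsub : (T ×ˢ T).filter (fun p => R p.1 p.2) ⊆
      (V.biUnion (fun a => (T.filter (fun b => R a b)).image (fun b => (a, b)))) ∪
      (V.biUnion (fun a => (T.filter (fun b => R a b)).image (fun b => (b, a)))) ∪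
      ((T.filter (fun a => R a a)).image (fun a => (a, a))) := by
    rintro ⟨a, b⟩ hp
    obtain ⟨k1, k2⟩ := Finset.mem_filter.mp hp
    obtain ⟨ha, hb⟩ := Finset.mem_product.mp k1
    simp only [Finset.mem_union, Finset.mem_biUnion, Finset.mem_image, Finset.mem_filter]
    by_cases hab : a = b
    · subst hab
      exact Or.inr ⟨a, ⟨ha, k2⟩, rfl⟩
    · rcases hcov a ha b hb hab k2 with h | h
      · exact Or.inl (Or.inl ⟨a, h, b, ⟨hb, k2⟩, rfl⟩)
      · exact Or.inl (Or.inr ⟨b, h, a, ⟨ha, hsym _ _ k2⟩, rfl⟩)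
  have hb1 : ∀ f : α → α → α × α, (V.biUnion (fun a =>
      (T.filter (fun b => R a b)).image (f a))).card ≤ 2 * n * d := by
    intro f
    calc _ ≤ ∑ a ∈ V, ((T.filter (fun b => R a b)).image (f a)).card := Finset.card_biUnion_le
      _ ≤ ∑ _a ∈ V, d := Finset.sum_le_sum (fun a ha =>
          Finset.card_image_le.trans (hd a (hVT a ha)))
      _ = V.card * d := by rw [Finset.sum_const, smul_eq_mul]
      _ ≤ 2 * n * d := Nat.mul_le_mul_right _ hV
  have e1 := (Finset.card_le_card hsub).trans ((Finset.card_union_le _ _).trans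
    (Nat.add_le_add_right (Finset.card_union_le _ _) _))
  have e2 := hb1 (fun a b => (a, b))
  have e3 := hb1 (fun a b => (b, a))
  have e4 : ((T.filter (fun a => R a a)).image (fun a => (a, a))).card ≤ e :=
    Finset.card_image_le.trans he
  have e5 : 2 * n * d + 2 * n * d = 4 * n * d := by ring
  omega

end Pool.Agent.E2
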