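import Pool.Agent.Helper84.E2.RS

/-!
# Random sets, form with one family
-/

set_option autoImplicit false

namespace Pool.Agent.E2

open Finset

open Classical in
/-- **Random sets.**  One family `F` of tests: few points in every set of the family, very few
points in the small ones; a family `FY` of pair tests. -/
theorem exists_rs2 {N M A b d : ℕ} (hM : 0 < M) (F FY : Finset (Finset ℕ)) (h3 : 4 * (N * N) ≤ M)
    (hF : 8 * F.card ≤ 2 ^ A) (hb : 8 * F.card ≤ 2 ^ (d * b)) (hFY : 4 * FY.card ≤ 2 ^ A) :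
    ∃ T : Finset ℕ, T.card = N ∧ (∀ t ∈ T, t < M) ∧
      (∀ Q ∈ F, (T.filter (fun t => t ∈ Q)).card < A + 8 * (N * Q.card) / M + 1) ∧
      (∀ Q ∈ F, N * Q.card * 2 ^ d ≤ M → (T.filter (fun t => t ∈ Q)).card < b) ∧
      ∀ Y ∈ FY, ∀ S : Finset (ℕ × ℕ), (∀ p ∈ S, p.1 ∈ T ∧ p.2 ∈ T ∧ p.1 ≠ p.2 ∧
        (p.1 + p.2) % M ∈ Y) → (∀ p ∈ S, ∀ q ∈ S, p ≠ q →
        p.1 ≠ q.1 ∧ p.1 ≠ q.2 ∧ p.2 ≠ q.1 ∧ p.2 ≠ q.2) →
        S.card < A + 8 * (N * N * Y.card) / M + 1 := by
  have hdiv : ∀ x : ℕ, x ≤ (A + x / M + 1) * M := by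
    intro x
    have h1 : x < x / M * M + M := Nat.lt_div_mul_add hM
    have h2 : (A + x / M + 1) * M = A * M + (x / M * M + M) := by ring
    rw [h2]
    exact h1.le.trans (Nat.le_add_left _ _)
  have hpow : ∀ x : ℕ, 2 ^ A ≤ 2 ^ (A + x / M + 1) := fun x =>
    Nat.pow_le_pow_right (by norm_num) (by rw [add_assoc]; exact Nat.le_add_right _ _)
  set Fs := F.filter (fun Q => N * Q.card * 2 ^ d ≤ M) with hFs
  have hFsc : Fs.card ≤ F.card := Finset.card_filter_le _ _
  let J : Finset (Finset ℕ ⊕ Finset ℕ) := F.disjSum Fs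
  have hJc : J.card ≤ 2 * F.card := by
    show (F.disjSum Fs).card ≤ _
    rw [Finset.card_disjSum]
    omega
  obtain ⟨T, h1, h2, h4, h5⟩ := exists_rs (N := N) (M := M) hM J (Sum.elim id id)
    (Sum.elim (fun Q => A + 8 * (N * Q.card) / M + 1) (fun _ => b)) FY id
    (fun Y => A + 8 * (N * N * Y.card) / M + 1) (by
      rintro (Q | Q) hQ
      · apply test_large (hdiv _)
        calc 4 * J.card ≤ 4 * (2 * F.card) := Nat.mul_le_mul_left _ hJc
          _ = 8 * F.card := by ring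
          _ ≤ 2 ^ A := hF
          _ ≤ _ := hpow _
      · have hQ' : Q ∈ Fs := by simpa [J] using hQ
        apply test_small (d := d) (Finset.mem_filter.mp hQ').2
        calc 4 * J.card ≤ 4 * (2 * F.card) := Nat.mul_le_mul_left _ hJc
          _ = 8 * F.card := by ring
          _ ≤ _ := hb) (by
      intro Y hY
      apply test_large (hdiv _)
      exact hFY.trans (hpow _)) h3
  refine ⟨T, h1, h2, ?_, ?_, ?_⟩
  · intro Q hQ
    exact h4 (Sum.inl Q) (by simpa [J] using hQ)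
  · intro Q hQ hs
    exact h4 (Sum.inr Q) (by
      have : Q ∈ Fs := Finset.mem_filter.mpr ⟨hQ, hs⟩
      simpa [J] using this)
  · intro Y hY
    exact h5 Y hY

end Pool.Agent.E2
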