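import Pool.Agent.Helper84.E2.StepT1

/-!
# E-T (MP_12a1af_nt), phase 2: the choice of the window sets, sizes of the tests
-/

set_option autoImplicit false

open Finset

namespace Pool.Agent.E2

open Classical in
/-- size of the tests `ta`, the part of one `c1` -/
lemma size_ta_aux {Sd : ℕ → Finset ℕ} {L1 L2 ρ : ℕ} (h2 : SdOk Sd L2) (hρ1 : L1 ≤ ρ)
    (hρ2 : ρ < L1 + L2) (x n σ2 : ℕ) :
    ((Sd L2).filter (fun c2 => ∃ v < 2 ^ ρ,
      (x + 2 ^ L1 * ((c2 + σ2) % 2 ^ L2) + v) % 2 ^ (L1 + L2) = n % 2 ^ (L1 + L2))).card ≤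
      40 * 2 ^ (L2 / 2 - (L1 + L2 - ρ)) := by
  set X := (Sd L2).filter (fun c2 => ∃ v < 2 ^ ρ,
      (x + 2 ^ L1 * ((c2 + σ2) % 2 ^ L2) + v) % 2 ^ (L1 + L2) = n % 2 ^ (L1 + L2)) with hX
  set s := L1 + L2 - ρ with hs
  have hs2 : s ≤ L2 := by omega
  obtain ⟨k, hk⟩ : ∃ k, ρ = L1 + k := ⟨ρ - L1, by omega⟩
  have hk2 : L2 - s = k := by omega
  have hks : L2 = k + s := by omega
  rcases X.eq_empty_or_nonempty with h0 | ⟨c0, hc0⟩
  · rw [h0]; simp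
  obtain ⟨-, v0, hv0, he0⟩ := mem_filter.mp hc0
  set r0 := (c0 + σ2) % 2 ^ L2 / 2 ^ k with hr0
  have hsub : X ⊆ ({r0 - 1, r0, r0 + 1, 2 ^ s - 1, 0} : Finset ℕ).biUnion (fun r =>
      (Sd L2).filter (fun u => (u + σ2) % 2 ^ L2 / 2 ^ (L2 - s) = r)) := by
    intro c hc
    obtain ⟨hcS, v, hv, he⟩ := mem_filter.mp hc
    rw [mem_biUnion]
    refine ⟨(c + σ2) % 2 ^ L2 / 2 ^ k, ?_, mem_filter.mpr ⟨hcS, by rw [hk2]⟩⟩
    -- the equation of the two solutions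
    set a := (c + σ2) % 2 ^ L2 with ha
    set a0 := (c0 + σ2) % 2 ^ L2 with ha0
    have ha1 : a < 2 ^ L2 := Nat.mod_lt _ (by positivity)
    have ha2 : a0 < 2 ^ L2 := Nat.mod_lt _ (by positivity)
    have he2 : (2 ^ L1 * a + v) % 2 ^ (L1 + L2) = (2 ^ L1 * a0 + v0) % 2 ^ (L1 + L2) := by
      have h3 : x + (2 ^ L1 * a + v) ≡ x + (2 ^ L1 * a0 + v0) [MOD 2 ^ (L1 + L2)] := by
        rw [Nat.ModEq, ← add_assoc, ← add_assoc, he, he0]
      exact Nat.ModEq.add_left_cancel' _ h3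
    have hp : (2 : ℕ) ^ (L1 + L2) = 2 ^ L1 * 2 ^ k * 2 ^ s := by
      rw [← pow_add, ← pow_add]; congr 1; omega
    have hp2 : (2 : ℕ) ^ L2 = 2 ^ k * 2 ^ s := by rw [← pow_add, ← hks]
    have hv' : v < 2 ^ L1 * 2 ^ k := by rw [← pow_add, ← hk]; exact hv
    have hv0' : v0 < 2 ^ L1 * 2 ^ k := by rw [← pow_add, ← hk]; exact hv0
    have hP1 : 0 < 2 ^ L1 := by positivity
    have hPk : 0 < 2 ^ k := by positivity
    have hPs : 0 < 2 ^ s := by positivity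
    have hdm := Nat.div_add_mod a (2 ^ k)
    have hdm0 := Nat.div_add_mod a0 (2 ^ k)
    have hml := Nat.mod_lt a hPk
    have hml0 := Nat.mod_lt a0 hPk
    set r := a / 2 ^ k with hr
    have hrs : r < 2 ^ s := by
      rw [hr]
      apply Nat.div_lt_of_lt_mul
      rw [← hp2]; exact ha1
    have hrs0 : r0 < 2 ^ s := by
      rw [hr0]
      apply Nat.div_lt_of_lt_mul
      rw [← hp2]; exact ha2
    -- the difference is a multiple of `2 ^ (L1 + L2)`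
    have key : ∀ a b v w : ℕ, a < 2 ^ L2 → b < 2 ^ L2 → v < 2 ^ L1 * 2 ^ k →
        w < 2 ^ L1 * 2 ^ k → 2 ^ L1 * a + v ≤ 2 ^ L1 * b + w →
        (2 ^ L1 * a + v) % 2 ^ (L1 + L2) = (2 ^ L1 * b + w) % 2 ^ (L1 + L2) →
        (b / 2 ^ k ≤ a / 2 ^ k + 1 ∧ a / 2 ^ k ≤ b / 2 ^ k + 1) ∨
          (a / 2 ^ k = 0 ∧ b / 2 ^ k = 2 ^ s - 1) := by
      intro a b v w ha hb hv hw hle hmod
      obtain ⟨j, hj⟩ := (Nat.modEq_iff_dvd' hle).mp hmod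
      have hdm := Nat.div_add_mod a (2 ^ k)
      have hdm0 := Nat.div_add_mod b (2 ^ k)
      have hml := Nat.mod_lt a hPk
      have hml0 := Nat.mod_lt b hPk
      have hjlt : j < 2 := by
        by_contra hcon
        push Not at hcon
        have h1 : 2 ^ (L1 + L2) * 2 ≤ 2 ^ (L1 + L2) * j := Nat.mul_le_mul_left _ hcon
        have h2 : 2 ^ L1 * b < 2 ^ L1 * 2 ^ L2 := Nat.mul_lt_mul_of_pos_left hb hP1
        rw [← pow_add] at h2
        have h3 : w < 2 ^ (L1 + L2) := by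
          refine lt_of_lt_of_le hw ?_
          rw [← pow_add]
          exact Nat.pow_le_pow_right (by norm_num) (by omega)
        omega
      have h5 : 2 ^ L1 * b + w = 2 ^ L1 * a + v + 2 ^ (L1 + L2) * j := by omega
      rcases Nat.eq_zero_or_pos j with hj0 | hj0
      · left
        rw [hj0, Nat.mul_zero, Nat.add_zero] at h5
        constructor
        · by_contra hcon
          push Not at hcon
          have e1 : a / 2 ^ k + 2 ≤ b / 2 ^ k := hcon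
          have e2 : 2 ^ k * (a / 2 ^ k + 2) ≤ 2 ^ k * (b / 2 ^ k) := Nat.mul_le_mul_left _ e1
          have e3 : 2 ^ k * (a / 2 ^ k + 2) = 2 ^ k * (a / 2 ^ k) + 2 * 2 ^ k := by ring
          have e4 : a + 2 ^ k + 1 ≤ b := by omega
          have e5 : 2 ^ L1 * (a + 2 ^ k + 1) ≤ 2 ^ L1 * b := Nat.mul_le_mul_left _ e4
          have e6 : 2 ^ L1 * (a + 2 ^ k + 1) = 2 ^ L1 * a + 2 ^ L1 * 2 ^ k + 2 ^ L1 := by ring
          omega
        · by_contra hcon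
          push Not at hcon
          have e1 : b / 2 ^ k + 2 ≤ a / 2 ^ k := hcon
          have e2 : 2 ^ k * (b / 2 ^ k + 2) ≤ 2 ^ k * (a / 2 ^ k) := Nat.mul_le_mul_left _ e1
          have e3 : 2 ^ k * (b / 2 ^ k + 2) = 2 ^ k * (b / 2 ^ k) + 2 * 2 ^ k := by ring
          have e4 : b + 2 ^ k + 1 ≤ a := by omega
          have e5 : 2 ^ L1 * (b + 2 ^ k + 1) ≤ 2 ^ L1 * a := Nat.mul_le_mul_left _ e4
          have e6 : 2 ^ L1 * (b + 2 ^ k + 1) = 2 ^ L1 * b + 2 ^ L1 * 2 ^ k + 2 ^ L1 := by ring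
          omega
      · right
        have hj1 : j = 1 := by omega
        rw [hj1, Nat.mul_one, hp] at h5
        have hP : 2 ^ L1 * 2 ^ k * 2 ^ s = 2 ^ L1 * (2 ^ k * 2 ^ s) := by ring
        constructor
        · by_contra hcon
          have e1 : 1 ≤ a / 2 ^ k := Nat.one_le_iff_ne_zero.mpr hcon
          have e2 : 2 ^ k * 1 ≤ 2 ^ k * (a / 2 ^ k) := Nat.mul_le_mul_left _ e1
          have e4 : 2 ^ k ≤ a := by omega
          have e5 : 2 ^ L1 * 2 ^ k ≤ 2 ^ L1 * a := Nat.mul_le_mul_left _ e4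
          have e6 : b + 1 ≤ 2 ^ k * 2 ^ s := by rw [← hp2]; exact hb
          have e7 : 2 ^ L1 * (b + 1) ≤ 2 ^ L1 * (2 ^ k * 2 ^ s) := Nat.mul_le_mul_left _ e6
          have e8 : 2 ^ L1 * (b + 1) = 2 ^ L1 * b + 2 ^ L1 := by ring
          omega
        · have e0 : b / 2 ^ k < 2 ^ s := by
            apply Nat.div_lt_of_lt_mul
            rw [← hp2]; exact hb
          by_contra hcon
          have e1 : b / 2 ^ k + 2 ≤ 2 ^ s := by omega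
          have e2 : 2 ^ k * (b / 2 ^ k + 2) ≤ 2 ^ k * 2 ^ s := Nat.mul_le_mul_left _ e1
          have e3 : 2 ^ k * (b / 2 ^ k + 2) = 2 ^ k * (b / 2 ^ k) + 2 * 2 ^ k := by ring
          have e4 : b + 2 ^ k + 1 ≤ 2 ^ k * 2 ^ s := by omega
          have e5 : 2 ^ L1 * (b + 2 ^ k + 1) ≤ 2 ^ L1 * (2 ^ k * 2 ^ s) :=
            Nat.mul_le_mul_left _ e4
          have e6 : 2 ^ L1 * (b + 2 ^ k + 1) = 2 ^ L1 * b + 2 ^ L1 * 2 ^ k + 2 ^ L1 := by ring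
          omega
    simp only [mem_insert, mem_singleton]
    have hfin : ∀ x y S : ℕ, x < S → y < S → ((y ≤ x + 1 ∧ x ≤ y + 1) ∨ (x = 0 ∧ y = S - 1) ∨
        (y = 0 ∧ x = S - 1)) → x = y - 1 ∨ x = y ∨ x = y + 1 ∨ x = S - 1 ∨ x = 0 := by
      intro x y S _ _ h
      omega
    apply hfin r r0 (2 ^ s) hrs hrs0
    rcases le_total (2 ^ L1 * a + v) (2 ^ L1 * a0 + v0) with hle | hle
    · rcases key a a0 v v0 ha1 ha2 hv' hv0' hle he2 with h | h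
      · exact Or.inl h
      · exact Or.inr (Or.inl h)
    · rcases key a0 a v0 v ha2 ha1 hv0' hv' hle he2.symm with h | h
      · exact Or.inl ⟨h.2, h.1⟩
      · exact Or.inr (Or.inr h)
  refine (card_le_card hsub).trans (card_biUnion_le.trans ?_)
  calc _ ≤ ∑ _r ∈ ({r0 - 1, r0, r0 + 1, 2 ^ s - 1, 0} : Finset ℕ), 8 * 2 ^ (L2 / 2 - s) :=
        sum_le_sum (fun r _ => h2.high s σ2 r hs2)
    _ = ({r0 - 1, r0, r0 + 1, 2 ^ s - 1, 0} : Finset ℕ).card * (8 * 2 ^ (L2 / 2 - s)) := by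
        rw [sum_const, smul_eq_mul]
    _ ≤ 5 * (8 * 2 ^ (L2 / 2 - s)) := Nat.mul_le_mul_right _ Finset.card_le_five
    _ = 40 * 2 ^ (L2 / 2 - s) := by ring

open Classical in
/-- size of the tests `ta` -/
lemma size_ta {Sd : ℕ → Finset ℕ} {L1 L2 ρ : ℕ} (h1 : SdOk Sd L1) (h2 : SdOk Sd L2)
    (hρ1 : L1 ≤ ρ) (hρ2 : ρ < L1 + L2) (h0 : 4 ≤ ρ) (b n σ1 σ2 : ℕ) :
    8 * (2 ^ (ρ / 2 - 1) * ((range (2 ^ ρ)).filter (fun t => ∃ c1 ∈ Sd L1, ∃ c2 ∈ Sd L2,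
      ((c1 + σ1) % 2 ^ L1 + 2 ^ L1 * ((c2 + σ2) % 2 ^ L2) + (t + b) % 2 ^ ρ) % 2 ^ (L1 + L2) =
      n % 2 ^ (L1 + L2))).card) ≤ 160 * 2 ^ ρ := by
  set X := (range (2 ^ ρ)).filter (fun t => ∃ c1 ∈ Sd L1, ∃ c2 ∈ Sd L2,
      ((c1 + σ1) % 2 ^ L1 + 2 ^ L1 * ((c2 + σ2) % 2 ^ L2) + (t + b) % 2 ^ ρ) % 2 ^ (L1 + L2) =
      n % 2 ^ (L1 + L2)) with hX
  have hc : X.card ≤ 2 ^ (L1 / 2) * (40 * 2 ^ (L2 / 2 - (L1 + L2 - ρ))) := by
    have e1 : X.card ≤ ((Sd L1).sigma (fun c1 => (Sd L2).filter (fun c2 => ∃ v < 2 ^ ρ,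
        ((c1 + σ1) % 2 ^ L1 + 2 ^ L1 * ((c2 + σ2) % 2 ^ L2) + v) % 2 ^ (L1 + L2) =
          n % 2 ^ (L1 + L2)))).card := by
      apply card_le_of_rel X _ (fun i t => ((i.1 + σ1) % 2 ^ L1 +
        2 ^ L1 * ((i.2 + σ2) % 2 ^ L2) + (t + b) % 2 ^ ρ) % 2 ^ (L1 + L2) = n % 2 ^ (L1 + L2))
      · intro t ht
        obtain ⟨_, c1, hc1, c2, hc2, he⟩ := mem_filter.mp ht
        exact ⟨⟨c1, c2⟩, mem_sigma.mpr ⟨hc1, mem_filter.mpr ⟨hc2, _,
          Nat.mod_lt _ (by positivity), he⟩⟩, he⟩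
      · intro i _ t ht t' ht' h h'
        have h3 := mem_range.mp (mem_filter.mp ht).1
        have h4 := mem_range.mp (mem_filter.mp ht').1
        have h5 : (t + b) % 2 ^ ρ = (t' + b) % 2 ^ ρ := by
          have hlt : ∀ y, y % 2 ^ ρ < 2 ^ (L1 + L2) := fun y =>
            (Nat.mod_lt y (by positivity)).trans_le (Nat.pow_le_pow_right (by norm_num) hρ2.le)
          exact add_mod_cancel' (hlt _) (hlt _) (h.trans h'.symm)
        exact add_mod_cancel h3 h4 h5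
    refine e1.trans ?_
    rw [card_sigma]
    calc _ ≤ ∑ _c1 ∈ Sd L1, 40 * 2 ^ (L2 / 2 - (L1 + L2 - ρ)) :=
          sum_le_sum (fun c1 _ => size_ta_aux h2 hρ1 hρ2 _ n σ2)
      _ = (Sd L1).card * (40 * 2 ^ (L2 / 2 - (L1 + L2 - ρ))) := by
          rw [sum_const, smul_eq_mul]
      _ ≤ _ := Nat.mul_le_mul_right _ h1.card
  calc 8 * (2 ^ (ρ / 2 - 1) * X.card) ≤
        8 * (2 ^ (ρ / 2 - 1) * (2 ^ (L1 / 2) * (40 * 2 ^ (L2 / 2 - (L1 + L2 - ρ))))) :=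
        Nat.mul_le_mul_left _ (Nat.mul_le_mul_left _ hc)
    _ = 320 * 2 ^ ((ρ / 2 - 1) + L1 / 2 + (L2 / 2 - (L1 + L2 - ρ))) := by
        rw [pow_add, pow_add]; ring
    _ ≤ 320 * 2 ^ (ρ - 1) := by
        apply Nat.mul_le_mul_left
        exact Nat.pow_le_pow_right (by norm_num) (by omega)
    _ = 160 * 2 ^ ρ := by
        rw [show (2 : ℕ) ^ ρ = 2 ^ (ρ - 1 + 1) by rw [Nat.sub_add_cancel (by omega)]]
        rw [pow_succ]; ring

open Classical in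
/-- size of the tests `tc` -/
lemma size_tc {Sd : ℕ → Finset ℕ} {L1 ρ : ℕ} (h1 : SdOk Sd L1) (hρ1 : L1 ≤ ρ) (h0 : 4 ≤ ρ)
    (n : ℕ) :
    8 * (2 ^ (ρ / 2 - 1) * ((range (2 ^ ρ)).filter (fun t => ∃ u ∈ Sd L1,
      (u + t) % 2 ^ L1 = n % 2 ^ L1)).card) ≤ (4 * 2 ^ ((ρ - L1) / 2)) * 2 ^ ρ := by
  set X := (range (2 ^ ρ)).filter (fun t => ∃ u ∈ Sd L1, (u + t) % 2 ^ L1 = n % 2 ^ L1) with hX
  have hc : X.card ≤ 2 ^ (L1 / 2) * 2 ^ (ρ - L1) := by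
    have e1 : X.card ≤ (Sd L1 ×ˢ range (2 ^ (ρ - L1))).card := by
      apply card_le_of_rel X _ (fun i t => (i.1 + t) % 2 ^ L1 = n % 2 ^ L1 ∧ t / 2 ^ L1 = i.2)
      · intro t ht
        obtain ⟨h2, u, hu, he⟩ := mem_filter.mp ht
        refine ⟨(u, t / 2 ^ L1), mem_product.mpr ⟨hu, mem_range.mpr ?_⟩, he, rfl⟩
        apply Nat.div_lt_of_lt_mul
        rw [← pow_add, Nat.add_sub_cancel' hρ1]
        exact mem_range.mp h2
      · rintro i _ t _ t' _ ⟨h2, h3⟩ ⟨h2', h3'⟩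
        have h4 : t ≡ t' [MOD 2 ^ L1] := Nat.ModEq.add_left_cancel' _ (h2.trans h2'.symm)
        rw [← Nat.div_add_mod t (2 ^ L1), ← Nat.div_add_mod t' (2 ^ L1), h3, h3', h4]
    refine e1.trans ?_
    rw [card_product, card_range]
    exact Nat.mul_le_mul_right _ h1.card
  calc 8 * (2 ^ (ρ / 2 - 1) * X.card) ≤ 8 * (2 ^ (ρ / 2 - 1) * (2 ^ (L1 / 2) * 2 ^ (ρ - L1))) :=
        Nat.mul_le_mul_left _ (Nat.mul_le_mul_left _ hc)
    _ = 8 * 2 ^ ((ρ / 2 - 1) + L1 / 2 + (ρ - L1)) := by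
        rw [pow_add, pow_add]; ring
    _ ≤ 8 * 2 ^ ((ρ - L1) / 2 + ρ - 1) := by
        apply Nat.mul_le_mul_left
        exact Nat.pow_le_pow_right (by norm_num) (by omega)
    _ = (4 * 2 ^ ((ρ - L1) / 2)) * 2 ^ ρ := by
        rw [show (ρ - L1) / 2 + ρ - 1 = (ρ - L1) / 2 + (ρ - 1) by omega, pow_add]
        rw [show (2 : ℕ) ^ ρ = 2 ^ (ρ - 1 + 1) by rw [Nat.sub_add_cancel (by omega)]]
        rw [pow_succ]; ring

open Classical in
/-- size of the tests `td` -/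
lemma card_td {Sd : ℕ → Finset ℕ} {L1 ρ : ℕ} (h1 : SdOk Sd L1) (b y : ℕ) :
    ((range (2 ^ ρ)).filter (fun t => ∃ u ∈ Sd L1, u + (t + b) % 2 ^ ρ = y)).card ≤
      2 ^ (L1 / 2) := by
  refine le_trans ?_ h1.card
  apply card_le_of_rel _ _ (fun u t => u + (t + b) % 2 ^ ρ = y)
  · intro t ht
    obtain ⟨_, u, hu, he⟩ := mem_filter.mp ht
    exact ⟨u, hu, he⟩
  · intro u _ t ht t' ht' h h'
    have h3 := mem_range.mp (mem_filter.mp ht).1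
    have h4 := mem_range.mp (mem_filter.mp ht').1
    have h5 : (t + b) % 2 ^ ρ = (t' + b) % 2 ^ ρ := by omega
    exact add_mod_cancel h3 h4 h5

end Pool.Agent.E2
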