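import Pool.Agent.Helper84.E2.StepT4

/-!
# E-T (MP_12a1af_nt), phase 2: the choice of the window sets, sizes of the tests (3)
-/

set_option autoImplicit false

open Finset

namespace Pool.Agent.E2

section

variable {G : Geo} (hG : G.Ok) {D : ℕ → Dt} {K : ℕ} (hK : G.K0 ≤ K)

include hG hK

lemma size_Q1 (b n σ1 σ2 : ℕ) :
    8 * (G.N K * (Q1 G K b n σ1 σ2).card) ≤ 160 * 2 ^ G.ρ K := by
  have hρ := hG.ρ_low hK
  have hd := hG.d_pos K hK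
  exact size_ta (hG.sd K _ hK (hG.q_le hK))
    (hG.sd K _ hK ((hG.q_le hK).trans (Nat.le_add_right _ _))) (hG.L1_le_ρ hK) (hG.ρ_lt hK)
    (by omega) b n σ1 σ2

lemma size_Q2 (n : ℕ) : 8 * (G.N K * (Q2 G K n).card) ≤
    (4 * 2 ^ ((G.ρ K - G.ln (G.w K)) / 2)) * 2 ^ G.ρ K := by
  have hρ := hG.ρ_low hK
  have hd := hG.d_pos K hK
  exact size_tc (hG.sd K _ hK (hG.q_le hK)) (hG.L1_le_ρ hK) (by omega) n

lemma card_Q3 (b y : ℕ) : (Q3 G K b y).card ≤ 2 ^ (G.ln (G.w K) / 2) :=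
  card_td (hG.sd K _ hK (hG.q_le hK)) b y

lemma size_Q3 (b y : ℕ) : 8 * (G.N K * (Q3 G K b y).card) ≤ 4 * 2 ^ G.ρ K := by
  have hρ := hG.ρ_low hK
  have hd := hG.d_pos K hK
  have hL := hG.L1_le_ρ hK
  calc 8 * (G.N K * (Q3 G K b y).card) ≤ 8 * (G.N K * 2 ^ (G.ln (G.w K) / 2)) :=
        Nat.mul_le_mul_left _ (Nat.mul_le_mul_left _ (card_Q3 hG hK b y))
    _ = 8 * 2 ^ (G.ρ K / 2 - 1 + G.ln (G.w K) / 2) := by
        unfold Geo.N; rw [pow_add]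
    _ ≤ 8 * 2 ^ (G.ρ K - 1) :=
        Nat.mul_le_mul_left _ (Nat.pow_le_pow_right (by norm_num) (by omega))
    _ = 4 * (2 ^ (G.ρ K - 1) * 2) := by ring
    _ = 4 * 2 ^ G.ρ K := by rw [← pow_succ, Nat.sub_add_cancel (by omega)]

lemma small_Q3 (h : G.ln (G.w K) + 4 * G.d K ≤ G.ρ K) (b y : ℕ) :
    G.N K * (Q3 G K b y).card * 2 ^ G.d K ≤ 2 ^ G.ρ K := by
  have hρ := hG.ρ_low hK
  have hd := hG.d_pos K hK
  calc G.N K * (Q3 G K b y).card * 2 ^ G.d K ≤ G.N K * 2 ^ (G.ln (G.w K) / 2) * 2 ^ G.d K :=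
        Nat.mul_le_mul_right _ (Nat.mul_le_mul_left _ (card_Q3 hG hK b y))
    _ = 2 ^ (G.ρ K / 2 - 1 + G.ln (G.w K) / 2 + G.d K) := by
        unfold Geo.N; rw [pow_add, pow_add]
    _ ≤ 2 ^ G.ρ K := Nat.pow_le_pow_right (by norm_num) (by omega)

lemma size_Q4 {K' : ℕ} (hn : G.Near K K') (hq : G.q K = G.q K') (hT : (D K').T.card = G.N K')
    (b n : ℕ) : 8 * (G.N K * (Q4 G D K K' b n).card) ≤ 2 * 2 ^ G.ρ K := by
  have h1 : (Q4 G D K K' b n).card ≤ (D K').T.card :=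
    card_rel1 (D K').T (fun t' => (t' + b) % 2 ^ G.ρ K') (2 ^ G.ρ K) n
  have h2 : G.ρ K' ≤ G.ρ K := by
    have := hn.2.1
    unfold Geo.ρ Geo.w
    rw [hq]
    omega
  have h3 := hG.num_half hK (c := 1) h2 (x := (Q4 G D K K' b n).card) (by
    rw [one_mul]
    refine h1.trans (le_of_eq hT))
  simpa using h3

/-- `K' - nx (w K')` and so on, in the case `q K = w K'` -/
lemma case1 {K' : ℕ} (hn : G.Near K K') (hq : G.q K = G.w K') :
    K' < K ∧ G.ln (G.w K') = G.l K ∧ G.w K ≤ K' ∧ G.ρ K' - G.ln (G.w K') = K' - G.w K ∧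
      G.ρ K' = K' - G.q K ∧ G.ln (G.w K') ≤ G.ρ K' := by
  have h0 := hG.l_low hK
  have hd := hG.d_pos K hK
  have h1 : G.w K = G.q K + G.l K := rfl
  have h2 : G.ln (G.w K') = G.l K := by unfold Geo.l; rw [hq]
  have h3 := hG.lo K' hn.1
  have h4 : G.nx (G.w K') = G.w K' + G.ln (G.w K') := rfl
  have h5 : K' ≠ K := by
    intro h
    rw [h] at hq
    omega
  have h6 := hn.2.1
  unfold Geo.ρ
  refine ⟨by omega, h2, by omega, by omega, by omega, by omega⟩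

lemma card_Q5 {K' : ℕ} (hn : G.Near K K') (hq : G.q K = G.w K') (hT : PT G D K') (b n : ℕ) :
    (Q5 G D K K' b n).card ≤ 8 * 2 ^ ((K' - G.w K) / 2) + G.A K := by
  classical
  obtain ⟨h1, h2, h3, h4, h5, h6⟩ := case1 hG hK hn hq
  have hA : G.A K' ≤ G.A K := hG.A_mono hn.2.1
  have e1 : (Q5 G D K K' b n).card ≤ ((D K').T.filter (fun i => ∃ u ∈ G.Sd (G.l K),
      (u + (i + b) % 2 ^ G.ρ K') % 2 ^ G.l K = n % 2 ^ G.l K)).card := by
    have := card_rel3 (ρ := G.ρ K) (hG.sd K (G.q K) hK le_rfl) (D K').T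
      (fun t' => (t' + b) % 2 ^ G.ρ K') n
    rw [show G.ln (G.q K) + G.ρ K = K - G.q K from (hG.sub_q hK).symm] at this
    exact this
  have e2 := card_tc_shift (Sd := G.Sd) (l := G.l K) (ρ' := G.ρ K') (D K').T (by rw [← h2]; exact h6)
    (B := 8 * 2 ^ ((G.ρ K' - G.ln (G.w K')) / 2) + G.A K') (by
      intro m
      have := hT.tc m
      rw [h2] at this ⊢
      exact this) 0 b n
  simp only [zero_add] at e2
  refine e1.trans (e2.trans ?_)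
  rw [h4]
  omega

lemma card_Q7 {K' : ℕ} (hn : G.Near K K') (hq : G.q K = G.w K') (hT : PT G D K')
    {L : Finset (ℕ × ℕ)} (hL : L ∈ G.LF K K') (μ n ε : ℕ) :
    (Q7 G D K K' L μ n ε).card ≤ (8 * G.A K) * (8 * 2 ^ ((K' - G.w K) / 2) + G.A K) := by
  classical
  obtain ⟨h1, h2, h3, h4, h5, h6⟩ := case1 hG hK hn hq
  have hA : G.A K' ≤ G.A K := hG.A_mono hn.2.1
  set f : ((ℕ × ℕ) × (ℕ × ℕ)) × ℕ → ℕ := fun i =>
    (D K).S i.1.2.1 + (i.2 + Sh G D K' i.1.2.2 + ε) % 2 ^ G.ρ K' with hf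
  have e1 : (Q7 G D K K' L μ n ε).card ≤ (((Lam G D K K' L μ) ×ˢ (D K').T).filter
      (fun i => ∃ u ∈ G.Sd (G.l K), (u + f i) % 2 ^ G.l K = n % 2 ^ G.l K)).card := by
    refine le_trans ?_ (card_rel3 (ρ := G.ρ K) (hG.sd K (G.q K) hK le_rfl) _ f n)
    rw [show G.ln (G.q K) + G.ρ K = K - G.q K from (hG.sub_q hK).symm]
    apply card_le_card
    intro t ht
    obtain ⟨k1, a, ha, u, hu, t', ht', he⟩ := mem_filter.mp ht
    refine mem_filter.mpr ⟨k1, u, hu, (a, t'), mem_product.mpr ⟨ha, ht'⟩, ?_⟩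
    rw [← he]
    show (u + 2 ^ G.l K * t + ((D K).S a.2.1 + (t' + Sh G D K' a.2.2 + ε) % 2 ^ G.ρ K')) % _ = _
    rw [← add_assoc]
  have e2 : (((Lam G D K K' L μ) ×ˢ (D K').T).filter
      (fun i => ∃ u ∈ G.Sd (G.l K), (u + f i) % 2 ^ G.l K = n % 2 ^ G.l K)) ⊆
      (Lam G D K K' L μ).biUnion (fun a => ((D K').T.filter (fun t => ∃ u ∈ G.Sd (G.l K),
        (u + ((D K).S a.2.1 + (t + (Sh G D K' a.2.2 + ε)) % 2 ^ G.ρ K')) % 2 ^ G.l K =
          n % 2 ^ G.l K)).image (fun t => (a, t))) := by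
    rintro ⟨a, t⟩ hi
    obtain ⟨k1, u, hu, he⟩ := mem_filter.mp hi
    obtain ⟨ha, ht⟩ := mem_product.mp k1
    rw [mem_biUnion]
    refine ⟨a, ha, mem_image.mpr ⟨t, mem_filter.mpr ⟨ht, u, hu, ?_⟩, rfl⟩⟩
    rw [← add_assoc t]
    exact he
  have e3 : ∀ a ∈ Lam G D K K' L μ, (((D K').T.filter (fun t => ∃ u ∈ G.Sd (G.l K),
        (u + ((D K).S a.2.1 + (t + (Sh G D K' a.2.2 + ε)) % 2 ^ G.ρ K')) % 2 ^ G.l K =
          n % 2 ^ G.l K)).image (fun t => (a, t))).card ≤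
        8 * 2 ^ ((K' - G.w K) / 2) + G.A K := by
    intro a _
    refine card_image_le.trans ?_
    refine (card_tc_shift (Sd := G.Sd) (l := G.l K) (ρ' := G.ρ K') (D K').T
      (by rw [← h2]; exact h6) (B := 8 * 2 ^ ((G.ρ K' - G.ln (G.w K')) / 2) + G.A K') (by
      intro m
      have := hT.tc m
      rw [h2] at this ⊢
      exact this) _ _ n).trans ?_
    rw [h4]
    omega
  refine e1.trans ((card_le_card e2).trans (card_biUnion_le.trans ((sum_le_sum e3).trans ?_)))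
  rw [sum_const, smul_eq_mul]
  apply Nat.mul_le_mul_right
  have hO := hG.sdO K hK
  exact (card_Lam_le hO K' L μ).trans (Nat.mul_le_mul_left _ (hG.card_mem K K' hn L hL))

lemma card_Q6 {K' : ℕ} (hn : G.Near K K') {L : Finset (ℕ × ℕ)} (hL : L ∈ G.LF K K')
    (μ n ε : ℕ) : (Q6 G D K K' L μ n ε).card ≤ (8 * G.A K) * (D K').T.card := by
  classical
  have e1 : (Q6 G D K K' L μ n ε).card ≤ ((Lam G D K K' L μ) ×ˢ (D K').T).card := by
    refine le_trans ?_ (card_rel1 ((Lam G D K K' L μ) ×ˢ (D K').T) (fun i =>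
      Sh G D K i.1.2.1 + (i.2 + Sh G D K' i.1.2.2 + ε) % 2 ^ G.ρ K') (2 ^ G.ρ K) n)
    apply card_le_card
    intro t ht
    obtain ⟨k1, a, ha, t', ht', he⟩ := mem_filter.mp ht
    refine mem_filter.mpr ⟨k1, (a, t'), mem_product.mpr ⟨ha, ht'⟩, ?_⟩
    rw [← he]
    show (t + (Sh G D K a.2.1 + (t' + Sh G D K' a.2.2 + ε) % 2 ^ G.ρ K')) % _ = _
    rw [← add_assoc]
  refine e1.trans ?_
  rw [card_product]
  apply Nat.mul_le_mul_right
  have hO := hG.sdO K hK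
  exact (card_Lam_le hO K' L μ).trans (Nat.mul_le_mul_left _ (hG.card_mem K K' hn L hL))

lemma card_Q8 {K' : ℕ} (hn : G.Near K K') {L : Finset (ℕ × ℕ)} (hL : L ∈ G.LF K K')
    (μ n : ℕ) : (Q8 G D K K' L μ n).card ≤ 8 * G.A K :=
  (card_rel1 (Lam G D K K' L μ) (fun a => Sh G D K a.2.1) (2 ^ G.ρ K) n).trans
    ((card_Lam_le (hG.sdO K hK) K' L μ).trans
      (Nat.mul_le_mul_left _ (hG.card_mem K K' hn L hL)))

lemma near_self84 : G.Near K K := ⟨hK, le_rfl, by have := hG.g_pos K hK; omega⟩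

lemma card_Q9 {L : Finset (ℕ × ℕ)} (hL : L ∈ G.LF K K) (μ n t0 : ℕ) :
    (Q9 G D K L μ n t0).card ≤ 8 * G.A K :=
  (card_rel1 (Lam G D K K L μ) (fun a => t0 + Sh G D K a.2.1 + Sh G D K a.2.2)
    (2 ^ G.ρ K) n).trans ((card_Lam_le (hG.sdO K hK) K L μ).trans
      (Nat.mul_le_mul_left _ (hG.card_mem K K (near_self84 hG hK) L hL)))

lemma card_Q10 {L : Finset (ℕ × ℕ)} (hL : L ∈ G.LF K K) (μ n : ℕ) :
    (Q10 G D K L μ n).card ≤ 16 * G.A K := by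
  have h1 : (Q10 G D K L μ n).card ≤ 2 * (Lam G D K K L μ).card :=
    card_rel2 (Lam G D K K L μ) (fun a => Sh G D K a.2.1 + Sh G D K a.2.2) (2 ^ G.ρ K) n
  have h2 := (card_Lam_le (D := D) (hG.sdO K hK) K L μ)
  have h3 := hG.card_mem K K (near_self84 hG hK) L hL
  omega

omit hG hK in
lemma card_Q11 (b n : ℕ) : (Q11 G K b n).card ≤ 2 := by
  have h1 : (Q11 G K b n).card ≤ 2 * ({b} : Finset ℕ).card :=
    card_rel2 ({b} : Finset ℕ) (fun i => i) (2 ^ G.ρ K) n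
  simpa using h1

lemma card_Y1 {L : Finset (ℕ × ℕ)} (hL : L ∈ G.LF K K) (μ n : ℕ) :
    (Y1 G D K L μ n).card ≤ 8 * G.A K :=
  (card_rel1 (Lam G D K K L μ) (fun a => Sh G D K a.2.1 + Sh G D K a.2.2)
    (2 ^ G.ρ K) n).trans ((card_Lam_le (hG.sdO K hK) K L μ).trans
      (Nat.mul_le_mul_left _ (hG.card_mem K K (near_self84 hG hK) L hL)))

omit hG hK in
lemma card_Y2 (b n : ℕ) : (Y2 G K b n).card ≤ 1 := by
  have h1 : (Y2 G K b n).card ≤ ({b} : Finset ℕ).card :=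
    card_rel1 ({b} : Finset ℕ) (fun i => i) (2 ^ G.ρ K) n
  simpa using h1

lemma num_Y {c x : ℕ} (hx : x ≤ c) : 8 * (G.N K * G.N K * x) ≤ 2 * c * 2 ^ G.ρ K := by
  calc 8 * (G.N K * G.N K * x) ≤ 8 * (G.N K * G.N K * c) :=
        Nat.mul_le_mul_left _ (Nat.mul_le_mul_left _ hx)
    _ = 2 * c * (4 * (G.N K * G.N K)) := by ring
    _ ≤ 2 * c * 2 ^ G.ρ K := Nat.mul_le_mul_left _ (hG.N_sq hK)

end

end Pool.Agent.E2
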