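import Pool.Agent.Helper84.E2.TopDefs

/-!
# E-T (MP_12a1af_nt), phase 2: local choice and top theorem, statements

Owners: `step_H`, `step_S` helper70; `step_T`, `exists_choice` helper84; `top_case2` helper7;
the rest helper84.  Please prove the same statement in a file of your own (import only
`TopDefs`), this file stays with `sorry` and is not imported by proofs.
-/

set_option autoImplicit false

open Finset

namespace Pool.Agent.E2

open Pool.Agent.ETS (Hash)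

variable {G : Geo}

/-- **Step H.** -/
theorem step_H (hG : G.Ok) (D : ℕ → Dt) {K : ℕ} (hK : G.K0 ≤ K)
    (hD : ∀ K', G.K0 ≤ K' → K' < K → PH G D K' ∧ PS G D K' ∧ PT G D K') :
    ∃ H, ∀ S T, PH G (Function.update D K ⟨H, S, T⟩) K := by
  sorry

/-- **Step S.** -/
theorem step_S (hG : G.Ok) (D : ℕ → Dt) {K : ℕ} (hK : G.K0 ≤ K)
    (hD : ∀ K', G.K0 ≤ K' → K' < K → PH G D K' ∧ PS G D K' ∧ PT G D K') (H : ℕ → ℕ)
    (hH : ∀ S T, PH G (Function.update D K ⟨H, S, T⟩) K) :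
    ∃ S, ∀ T, PS G (Function.update D K ⟨H, S, T⟩) K := by
  sorry

/-- **Step T.** -/
theorem step_T (hG : G.Ok) (D : ℕ → Dt) {K : ℕ} (hK : G.K0 ≤ K)
    (hD : ∀ K', G.K0 ≤ K' → K' < K → PH G D K' ∧ PS G D K' ∧ PT G D K') (H S : ℕ → ℕ)
    (hH : ∀ T, PH G (Function.update D K ⟨H, S, T⟩) K)
    (hS : ∀ T, PS G (Function.update D K ⟨H, S, T⟩) K) :
    ∃ T, PT G (Function.update D K ⟨H, S, T⟩) K := by
  sorry

/-- **The local choice.** -/
theorem exists_choice (hG : G.Ok) :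
    ∃ D : ℕ → Dt, ∀ K, G.K0 ≤ K → PH G D K ∧ PS G D K ∧ PT G D K := by
  sorry

/-- **Top theorem without lists**, for arbitrary hash functions. -/
theorem top_zero (hG : G.Ok) {D : ℕ → Dt}
    (hD : ∀ K, G.K0 ≤ K → PH G D K ∧ PS G D K ∧ PT G D K) {K K' : ℕ} (hn : G.Near K K') {n : ℕ}
    (hq : G.q K = G.nx^[n] (G.q K')) :
    NBt (cl G (G.q K') n ++ [zn G D K]) [zn G D K'] (1600 * G.A K * G.b K) := by
  sorry

/-- **Top theorem with lists.** -/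
theorem top_list (hG : G.Ok) {D : ℕ → Dt}
    (hD : ∀ K, G.K0 ≤ K → PH G D K ∧ PS G D K ∧ PT G D K) {K K' : ℕ} (hn : G.Near K K')
    (hT : G.isT K ∨ G.isT K') {n : ℕ} (hq : G.q K = G.nx^[n] (G.q K')) {L : Finset (ℕ × ℕ)}
    (hL : L ∈ G.LF K K') (μ ν : ℕ) (f : (ℕ × ℕ) × (ℕ × ℕ) → ℕ)
    (hf : ∀ a ∈ Lam G D K K' L μ, ∃ h h' : Hash,
      (∀ y ∈ Vs (cl G (G.q K') n), nexts (cl G (G.q K') n) h y [] = (D K).S a.2.1) ∧
      h' [] = (D K').S a.2.2 ∧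
      f a ≤ cnt (cl G (G.q K') n ++ [zn G D K]) [zn G D K'] h h' ν) :
    ∑ a ∈ Lam G D K K' L μ, f a ≤ 10 ^ 6 * G.A K * G.b K ^ 3 := by
  sorry

/-- the case `i' ≤ i - 2` (helper7): completions below the window and survivors -/
theorem top_case2 (hG : G.Ok) {D : ℕ → Dt}
    (hD : ∀ K, G.K0 ≤ K → PH G D K ∧ PS G D K ∧ PT G D K) {K K' : ℕ} (hn : G.Near K K') {n : ℕ}
    (hq : G.q K = G.nx^[n + 2] (G.q K')) (h h' : Hash) (s s' ν : ℕ)
    (hs : ∀ y ∈ Vs (cl G (G.q K') (n + 2)), nexts (cl G (G.q K') (n + 2)) h y [] = s)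
    (hs' : h' [] = s') :
    K' < G.w K ∧ cnt (cl G (G.q K') (n + 2) ++ [zn G D K]) [zn G D K'] h h' ν ≤ 16 * G.A K ∧
    (0 < cnt (cl G (G.q K') (n + 2) ++ [zn G D K]) [zn G D K'] h h' ν → ∃ e < 3, ∃ t ∈ (D K).T,
      (t + s / 2 ^ G.l K + e) % 2 ^ G.ρ K = ν / 2 ^ G.w K % 2 ^ G.ρ K) := by
  sorry

end Pool.Agent.E2
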